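import Pool.Agent.H15.G.R_seed8.TH146.MN.Tube

/-! Leading coefficients of one row on all tubes, and the choice of the tube. -/

set_option autoImplicit false
set_option linter.unusedSectionVars false

namespace Pool.Agent.TH146.MN

open Pool.Agent.TH603.EL Pool.Agent.TH603.EL.Scal2 Pool.Agent.TH793.NG

section alg
variable {F : Type} [Field F] {κ : Type} [Fintype κ] [DecidableEq κ]

/-- the polynomial of the nodes -/
noncomputable def PP (c : κ → F) : Polynomial F := ∏ j, (Polynomial.X - Polynomial.C (c j))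

theorem natDegree_PP (c : κ → F) : (PP c).natDegree = Fintype.card κ := by
  unfold PP
  rw [Polynomial.natDegree_prod_of_monic _ _ fun j _ => Polynomial.monic_X_sub_C _]
  simp

theorem PP_ne (c : κ → F) : PP c ≠ 0 := by
  unfold PP
  exact Finset.prod_ne_zero_iff.2 fun j _ => Polynomial.X_sub_C_ne_zero _

/-- the norm form -/
noncomputable def NN (c : κ → F) (A B : Polynomial F) : Polynomial F :=
  A ^ 2 - (1 + Polynomial.X) * PP c ^ 2 * B ^ 2

theorem one_add_X_deg : (1 + Polynomial.X : Polynomial F).natDegree = 1 := by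
  have : (1 + Polynomial.X : Polynomial F) = Polynomial.X + Polynomial.C 1 := by
    rw [Polynomial.C_1, add_comm]
  rw [this, Polynomial.natDegree_X_add_C]

theorem one_add_X_ne : (1 + Polynomial.X : Polynomial F) ≠ 0 := by
  intro h
  have := one_add_X_deg (F := F)
  rw [h] at this
  simp at this

theorem NN_ne (c : κ → F) (A B : Polynomial F) (h : A ≠ 0 ∨ B ≠ 0) : NN c A B ≠ 0 := by
  intro h0
  have h1 : A ^ 2 = (1 + Polynomial.X) * PP c ^ 2 * B ^ 2 := sub_eq_zero.1 h0
  by_cases hB : B = 0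
  · subst hB
    have hA : A = 0 := by
      have : A ^ 2 = 0 := by rw [h1]; ring
      exact pow_eq_zero_iff (two_ne_zero) |>.1 this
    rcases h with h | h
    · exact h hA
    · exact h rfl
  · have h2 := congrArg Polynomial.natDegree h1
    rw [Polynomial.natDegree_pow, Polynomial.natDegree_mul (mul_ne_zero one_add_X_ne
      (pow_ne_zero 2 (PP_ne c))) (pow_ne_zero 2 hB), Polynomial.natDegree_mul one_add_X_ne
      (pow_ne_zero 2 (PP_ne c)), one_add_X_deg, Polynomial.natDegree_pow,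
      Polynomial.natDegree_pow] at h2
    omega

theorem NN_deg (c : κ → F) (A B : Polynomial F) {m : ℕ} (hA : A.natDegree ≤ m)
    (hB : B = 0 ∨ 2 * B.natDegree + (2 * Fintype.card κ + 1) ≤ 2 * m) :
    (NN c A B).natDegree ≤ 2 * m := by
  have h1 : (A ^ 2).natDegree ≤ 2 * m := by
    refine (Polynomial.natDegree_pow_le).trans ?_
    omega
  have h2 : ((1 + Polynomial.X) * PP c ^ 2 * B ^ 2).natDegree ≤ 2 * m := by
    rcases hB with hB | hB
    · subst hB; simp
    · refine (Polynomial.natDegree_mul_le).trans ?_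
      have h3 : ((1 + Polynomial.X) * PP c ^ 2 : Polynomial F).natDegree ≤
          1 + 2 * Fintype.card κ := by
        refine (Polynomial.natDegree_mul_le).trans ?_
        rw [one_add_X_deg, Polynomial.natDegree_pow, natDegree_PP]
      have h4 : (B ^ 2).natDegree ≤ 2 * B.natDegree := Polynomial.natDegree_pow_le
      omega
  exact (Polynomial.natDegree_sub_le _ _).trans (max_le h1 h2)

theorem orders_le (c : κ → F) (hc : Function.Injective c) {N : Polynomial F} (hN : N ≠ 0)
    (r : κ → ℕ) (h : ∀ l, Polynomial.X ^ r l ∣ N.comp (ql c l)) : ∑ l, r l ≤ N.natDegree := by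
  have h1 : ∀ l, (Polynomial.X - Polynomial.C (c l)) ^ r l ∣ N := by
    intro l
    obtain ⟨D, hD⟩ := h l
    refine ⟨D.comp (Polynomial.X - Polynomial.C (c l)), ?_⟩
    have h2 := congrArg (fun p => Polynomial.comp p (Polynomial.X - Polynomial.C (c l))) hD
    simp only [Polynomial.comp_assoc, ql, Polynomial.add_comp, Polynomial.X_comp,
      Polynomial.C_comp, sub_add_cancel, Polynomial.comp_X, Polynomial.mul_comp,
      Polynomial.X_pow_comp] at h2
    exact h2
  have h2 : (∏ l, (Polynomial.X - Polynomial.C (c l)) ^ r l) ∣ N := by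
    apply Finset.prod_dvd_of_coprime
    · intro i _ j _ hij
      exact (Polynomial.pairwise_coprime_X_sub_C hc hij).pow
    · intro i _; exact h1 i
  have h3 := Polynomial.natDegree_le_of_dvd h2 hN
  rw [Polynomial.natDegree_prod_of_monic _ _ fun j _ => (Polynomial.monic_X_sub_C _).pow _] at h3
  refine le_trans (le_of_eq ?_) h3
  refine Finset.sum_congr rfl fun l _ => ?_
  rw [(Polynomial.monic_X_sub_C (c l)).natDegree_pow]
  simp

end alg

section edge
variable {F : Type} [Field F] {a b s c0 : ℝ} {x : HR F}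

theorem coe_comp (p q : Polynomial F) (n : ℕ) (hn : p.natDegree < n) :
    ((p.comp q : Polynomial F) : PowerSeries F) =
      ∑ k ∈ Finset.range n, PowerSeries.C (p.coeff k) * (q : PowerSeries F) ^ k := by
  unfold Polynomial.comp
  rw [Polynomial.eval₂_eq_sum_range' _ hn]
  have h := map_sum (Polynomial.coeToPowerSeries.ringHom (R := F))
    (fun k => Polynomial.C (p.coeff k) * q ^ k) (Finset.range n)
  simp only [Polynomial.coeToPowerSeries.ringHom_apply] at h
  rw [h]
  refine Finset.sum_congr rfl fun k _ => ?_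
  push_cast
  rfl

theorem Ep_evA' (ha : 0 < a) (hb : 0 < b) (hs : 0 < s) {A : Polynomial (HK F)}
    (hA : ∀ k, Low (A.coeff k) c0) (hx : Mc a b s 0 x) {q : Polynomial F}
    (hX : Ep a 0 x = (q : PowerSeries F)) :
    Ep a c0 (evA x A) = (((bar c0 A).comp q : Polynomial F) : PowerSeries F) := by
  unfold evA
  rw [Polynomial.eval₂_eq_sum_range, Ep_sum,
    coe_comp (bar c0 A) q (A.natDegree + 1) (Nat.lt_succ_of_le (natDegree_bar c0 A))]
  refine Finset.sum_congr rfl fun k _ => ?_
  have h2 := Ep_mul ha hb hs (Mc.incl (a := a) (b := b) (s := s) (hA k)) (hx.pow k)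
  rw [add_zero, Ep_incl ha, Ep_pow ha hb hs hx, hX] at h2
  rw [h2, coeff_bar]

theorem Em_evA' (ha : 0 < a) (hb : 0 < b) (hs : 0 < s) {A : Polynomial (HK F)}
    (hA : ∀ k, Low (A.coeff k) c0) (hx : Mc a b s 0 x) {q : Polynomial F}
    (hX : Em b 0 x = (q : PowerSeries F)) :
    Em b c0 (evA x A) = (((bar c0 A).comp q : Polynomial F) : PowerSeries F) := by
  unfold evA
  rw [Polynomial.eval₂_eq_sum_range, Em_sum,
    coe_comp (bar c0 A) q (A.natDegree + 1) (Nat.lt_succ_of_le (natDegree_bar c0 A))]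
  refine Finset.sum_congr rfl fun k _ => ?_
  have h2 := Em_mul ha hb hs (Mc.incl (a := a) (b := b) (s := s) (hA k)) (hx.pow k)
  rw [add_zero, Em_incl hb, Em_pow ha hb hs hx, hX] at h2
  rw [h2, coeff_bar]

end edge

/-- the choice of the tube -/
theorem select {κ : Type} [Fintype κ] {a b γ : κ → ℝ} (ha : ∀ l, 0 < a l) (hb : ∀ l, 0 < b l)
    (hab : ∀ l, a l + b l = 1) (hγ : ∑ l, γ l = 1) {m : ℝ} {c0 : ℝ} {i0 i1 : κ → ℕ}
    {n : κ → ℝ} (hsum : ∑ l, ((i0 l : ℝ) + i1 l) ≤ 2 * m) (h0 : ∀ l, n l ≤ c0 + a l * i0 l)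
    (h1 : ∀ l, n l ≤ c0 + b l * i1 l) {k : κ}
    (hk : ∀ l, n k - 2 * m * γ k * (a k * b k) ≤ n l - 2 * m * γ l * (a l * b l)) {i : ℤ}
    (g2 : c0 + a k * i ≤ n k) (g3 : c0 - b k * i ≤ n k) :
    -(2 * a k * γ k * m) ≤ (i : ℝ) ∧ (i : ℝ) ≤ 2 * b k * γ k * m := by
  have key : n k - 2 * m * γ k * (a k * b k) ≤ c0 := by
    by_contra hcon
    push Not at hcon
    have h3 : ∀ l, 2 * m * γ l < (i0 l : ℝ) + i1 l := by
      intro l
      have h4 : c0 < n l - 2 * m * γ l * (a l * b l) := lt_of_lt_of_le hcon (hk l)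
      have h5 : a l * (2 * m * γ l * b l) < a l * i0 l := by
        have := h0 l
        linarith
      have h6 : b l * (2 * m * γ l * a l) < b l * i1 l := by
        have := h1 l
        linarith
      have h7 := lt_of_mul_lt_mul_left h5 (ha l).le
      have h8 := lt_of_mul_lt_mul_left h6 (hb l).le
      have h9 : 2 * m * γ l = 2 * m * γ l * b l + 2 * m * γ l * a l := by
        rw [← mul_add, add_comm (b l), hab l, mul_one]
      linarith
    have h4 : ∑ l, 2 * m * γ l < ∑ l, ((i0 l : ℝ) + i1 l) :=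
      Finset.sum_lt_sum_of_nonempty ⟨k, Finset.mem_univ k⟩ fun l _ => h3 l
    rw [← Finset.mul_sum, hγ, mul_one] at h4
    linarith
  constructor
  · by_contra hcon
    push Not at hcon
    have h5 : b k * (2 * a k * γ k * m) < b k * (-(i : ℝ)) :=
      mul_lt_mul_of_pos_left (by linarith) (hb k)
    linarith
  · by_contra hcon
    push Not at hcon
    have h5 : a k * (2 * b k * γ k * m) < a k * (i : ℝ) :=
      mul_lt_mul_of_pos_left hcon (ha k)
    linarith

section lead
variable {F : Type} [Field F] [CharZero F] {κ : Type} [Fintype κ] [DecidableEq κ]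

/-- the section on the tube `l` -/
noncomputable def GG (ε c : κ → F) (a b s : κ → ℝ) (A B : Polynomial (HK F)) (l : κ) : HR F :=
  evA (xk c l (a l) (b l) (s l)) A + evA (xk c l (a l) (b l) (s l)) B * yk ε c l (a l) (b l) (s l)

/-- the leading coefficients of a section on all tubes -/
theorem row_lead {ε c : κ → F} {a b s : κ → ℝ} (ha : ∀ l, 0 < a l) (hb : ∀ l, 0 < b l)
    (hs : ∀ l, 0 < s l) (hab : ∀ l, a l + b l = 1) (hε2 : ∀ l, ε l ^ 2 = 1 + c l)
    (hε : ∀ l, ε l ≠ 0) (hc : Function.Injective c) {m : ℕ} (A B : Polynomial (HK F))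
    (hne : A ≠ 0 ∨ B ≠ 0) (hA : A.natDegree ≤ m)
    (hB : B = 0 ∨ 2 * B.natDegree + (2 * Fintype.card κ + 1) ≤ 2 * m)
    (hsm : ∀ l, 2 * (m : ℝ) < s l) :
    ∃ (c0 : ℝ) (i0 i1 : κ → ℕ) (n : κ → ℝ), ∑ l, (i0 l + i1 l) ≤ 2 * m ∧
      ∀ l, Low (GG ε c a b s A B l) (n l) ∧ (∃ i j, cf (GG ε c a b s A B l) (n l) i j ≠ 0) ∧
        n l ≤ c0 + a l * i0 l ∧ n l ≤ c0 + b l * i1 l ∧
        ∀ i j, cf (GG ε c a b s A B l) (n l) i j ≠ 0 →
          j = 0 ∧ c0 + a l * i ≤ n l ∧ c0 - b l * i ≤ n l := by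
  obtain ⟨c0, hcA, hcB, hcc⟩ := exists_min A B hne
  obtain ⟨N, hN⟩ : ∃ N : Polynomial F, N = NN c (bar c0 A) (bar c0 B) := ⟨_, rfl⟩
  have hN0 : N ≠ 0 := by rw [hN]; exact NN_ne c _ _ hcc
  have hNd : N.natDegree ≤ 2 * m := by
    rw [hN]
    refine NN_deg c _ _ ((natDegree_bar c0 A).trans hA) ?_
    rcases hB with hB | hB
    · left
      ext k
      rw [coeff_bar, hB]; simp
    · right
      have := natDegree_bar c0 B
      omega
  have hwk : ∀ l, wk ε c l ≠ 0 := wk_ne hε hc
  have main : ∀ l, Mc (a l) (b l) (s l) c0 (GG ε c a b s A B l) ∧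
      Ep (a l) c0 (GG ε c a b s A B l) * Em (b l) c0 (GG ε c a b s A B l) =
        ((N.comp (ql c l) : Polynomial F) : PowerSeries F) := by
    intro l
    obtain ⟨σ, hσ, hp, hm⟩ := edges_yk (ha l) (hb l) (hs l) (hab l) hε2 (hwk l)
    have hxx := Mc_xk (c := c) (l := l) (ha l) (hb l) (hs l)
    have hyy := Mc_yk (ha l) (hb l) (hs l) (hab l) hε2 (hwk l)
    have hMA := evA_wedge hcA hxx
    have hMB := evA_wedge hcB hxx
    have hM : Mc (a l) (b l) (s l) c0 (GG ε c a b s A B l) := by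
      unfold GG
      refine hMA.add ?_
      have := hMB.mul hyy
      rwa [add_zero] at this
    have hEp : Ep (a l) c0 (GG ε c a b s A B l) =
        (((bar c0 A).comp (ql c l) : Polynomial F) : PowerSeries F) -
        (((bar c0 B).comp (ql c l) : Polynomial F) : PowerSeries F) * (σ * PowerSeries.X) := by
      have h1 := Ep_mul (ha l) (hb l) (hs l) hMB hyy
      rw [add_zero, hp, Ep_evA' (ha l) (hb l) (hs l) hcB hxx (Ep_xk (ha l))] at h1
      unfold GG
      rw [Ep_add, h1, Ep_evA' (ha l) (hb l) (hs l) hcA hxx (Ep_xk (ha l))]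
      ring
    have hEm : Em (b l) c0 (GG ε c a b s A B l) =
        (((bar c0 A).comp (ql c l) : Polynomial F) : PowerSeries F) +
        (((bar c0 B).comp (ql c l) : Polynomial F) : PowerSeries F) * (σ * PowerSeries.X) := by
      have h1 := Em_mul (ha l) (hb l) (hs l) hMB hyy
      rw [add_zero, hm, Em_evA' (ha l) (hb l) (hs l) hcB hxx (Em_xk (hb l))] at h1
      unfold GG
      rw [Em_add, h1, Em_evA' (ha l) (hb l) (hs l) hcA hxx (Em_xk (hb l))]
    refine ⟨hM, ?_⟩
    have hPP : (PP c).comp (ql c l) = Polynomial.X *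
        ∏ j ∈ Finset.univ.erase l, (ql c l - Polynomial.C (c j)) := by
      unfold PP
      rw [Polynomial.prod_comp, ← Finset.mul_prod_erase Finset.univ _ (Finset.mem_univ l)]
      congr 1
      · simp [ql]
      · refine Finset.prod_congr rfl fun j _ => ?_
        simp
    have hNc : N.comp (ql c l) = ((bar c0 A).comp (ql c l)) ^ 2 -
        Vl c l * Polynomial.X ^ 2 * ((bar c0 B).comp (ql c l)) ^ 2 := by
      rw [hN]
      unfold NN Vl
      rw [Polynomial.sub_comp, Polynomial.mul_comp, Polynomial.mul_comp, Polynomial.pow_comp,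
        Polynomial.pow_comp, Polynomial.pow_comp, hPP, Polynomial.add_comp, Polynomial.one_comp,
        Polynomial.X_comp, Finset.prod_pow]
      ring
    rw [hEp, hEm, hNc]
    push_cast
    linear_combination (-(PowerSeries.X ^ 2) *
      (((bar c0 B).comp (ql c l) : Polynomial F) : PowerSeries F) ^ 2) * hσ
  have hNs : ∀ l, ((N.comp (ql c l) : Polynomial F) : PowerSeries F) ≠ 0 := by
    intro l h
    have h1 : N.comp (ql c l) = 0 := by exact_mod_cast h
    have h2 := congrArg (fun p => Polynomial.comp p (Polynomial.X - Polynomial.C (c l))) h1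
    simp only [Polynomial.comp_assoc, ql, Polynomial.add_comp, Polynomial.X_comp,
      Polynomial.C_comp, sub_add_cancel, Polynomial.comp_X, Polynomial.zero_comp] at h2
    exact hN0 h2
  have hEp0 : ∀ l, Ep (a l) c0 (GG ε c a b s A B l) ≠ 0 := fun l h =>
    hNs l (by rw [← (main l).2, h, zero_mul])
  have hEm0 : ∀ l, Em (b l) c0 (GG ε c a b s A B l) ≠ 0 := fun l h =>
    hNs l (by rw [← (main l).2, h, mul_zero])
  obtain ⟨i0, hi0⟩ : ∃ i0 : κ → ℕ, ∀ l, (Ep (a l) c0 (GG ε c a b s A B l)).order = i0 l :=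
    ⟨_, fun l => (PowerSeries.coe_toNat_order (hEp0 l)).symm⟩
  obtain ⟨i1, hi1⟩ : ∃ i1 : κ → ℕ, ∀ l, (Em (b l) c0 (GG ε c a b s A B l)).order = i1 l :=
    ⟨_, fun l => (PowerSeries.coe_toNat_order (hEm0 l)).symm⟩
  have hsum : ∑ l, (i0 l + i1 l) ≤ 2 * m := by
    refine (orders_le c hc hN0 (fun l => i0 l + i1 l) fun l => ?_).trans hNd
    rw [Polynomial.X_pow_dvd_iff]
    intro d hd
    rw [← Polynomial.coeff_coe]
    apply PowerSeries.coeff_of_lt_order
    rw [← (main l).2, PowerSeries.order_mul, hi0 l, hi1 l]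
    exact_mod_cast hd
  refine ⟨c0, i0, i1, fun l => (GG ε c a b s A B l).order, hsum, fun l => ?_⟩
  beta_reduce
  obtain ⟨hM, -⟩ := main l
  obtain ⟨G, hG⟩ : ∃ G, G = GG ε c a b s A B l := ⟨_, rfl⟩
  have hEpl := hEp0 l
  have hEml := hEm0 l
  have hi0l := hi0 l
  have hi1l := hi1 l
  rw [← hG] at hM hEpl hEml hi0l hi1l ⊢
  have h0 : cf G (c0 + a l * i0 l) (i0 l) 0 ≠ 0 := by
    have := PowerSeries.coeff_order hEpl
    rw [hi0l] at this
    simpa [Ep] using this
  have h1 : cf G (c0 + b l * i1 l) (-(i1 l)) 0 ≠ 0 := by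
    have := PowerSeries.coeff_order hEml
    rw [hi1l] at this
    simpa [Em] using this
  have hcoeff : ∀ n i j, cf G n i j ≠ 0 → G.coeff n ≠ 0 := by
    intro n i j h h2
    apply h
    unfold cf
    rw [h2]; simp
  have hG0 : G ≠ 0 := by
    intro h
    apply h0
    rw [h, Pool.Agent.TH793.NG.cf_zero]
  have ho0 : G.order ≤ c0 + a l * i0 l :=
    HahnSeries.order_le_of_coeff_ne_zero (hcoeff _ _ _ h0)
  have ho1 : G.order ≤ c0 + b l * i1 l :=
    HahnSeries.order_le_of_coeff_ne_zero (hcoeff _ _ _ h1)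
  have hile : i0 l + i1 l ≤ 2 * m :=
    (Finset.single_le_sum (f := fun l => i0 l + i1 l) (fun _ _ => Nat.zero_le _)
      (Finset.mem_univ l)).trans hsum
  have hle' : (i0 l : ℝ) + i1 l ≤ 2 * m := by exact_mod_cast hile
  have hi0' : (0 : ℝ) ≤ i0 l := Nat.cast_nonneg _
  have hi1' : (0 : ℝ) ≤ i1 l := Nat.cast_nonneg _
  refine ⟨fun n hn => HahnSeries.coeff_eq_zero_of_lt_order hn, ?_, ho0, ho1, ?_⟩
  · by_contra hcon
    push Not at hcon
    apply HahnSeries.coeff_order_eq_zero.not.2 hG0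
    ext ⟨i, j⟩
    exact hcon i j
  · intro i j hij
    obtain ⟨g1, g2, g3⟩ := hM _ _ _ hij
    have hj : j = 0 := by
      by_contra hj
      have hj1 : (1 : ℝ) ≤ j := by
        have : 1 ≤ j := by omega
        exact_mod_cast this
      have hsl := hs l
      have hal := ha l
      have hbl := hb l
      have habl := hab l
      have hsml := hsm l
      have h5 : s l ≤ s l * j := by nlinarith
      have h6 : a l * i0 l ≤ 2 * m := by nlinarith
      rcases le_total (0 : ℝ) i with h7 | h7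
      · nlinarith
      · nlinarith
    subst hj
    push_cast at g2 g3
    exact ⟨rfl, by linarith, by linarith⟩

end lead

end Pool.Agent.TH146.MN
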