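import Pool.Agent.H15.G.R_seed8.TH545.Nag.Nf

/-! A class of self-intersection zero on the boundary of the effective cone is nef. -/

set_option autoImplicit false

namespace Pool.Agent.TH146.MN.NF

open Pool.Agent.TH176.Nag Pool.Agent.H350R3

/-- Emptiness in the triangle gives emptiness at all algebraically independent points. -/
theorem nbEmp_indep {n d : ℕ} {w : Fin n → ℕ}
    (h : Emp w {q : ℤ × ℤ | 0 ≤ q.1 ∧ 0 ≤ q.2 ∧ q.1 + q.2 ≤ (d : ℤ)})
    {z : Fin n × Fin 2 → ℂ} (hz : AlgebraicIndependent ℚ z) :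
    NB.Emp w (fun i j => z (i, j)) d := by
  intro f hf hfd
  have hxy : AlgebraicIndependent ℚ (fun q : Fin n × Fin 2 =>
      ![(fun i => z (i, 0)) q.1, (fun i => z (i, 1)) q.1] q.2) := by
    have e : (fun q : Fin n × Fin 2 => (![(fun i => z (i, 0)) q.1, (fun i => z (i, 1)) q.1] :
        Fin 2 → ℂ) q.2) = z := by
      funext q
      obtain ⟨i, j⟩ := q
      fin_cases j <;> rfl
    rw [e]; exact hz
  have hx : ∀ i, z (i, 0) ≠ 0 := fun i => hz.ne_zero (i, 0)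
  have hy : ∀ i, z (i, 1) ≠ 0 := fun i => hz.ne_zero (i, 1)
  have key := Pool.Agent.TH545.Nag.Emp_generic (Pool.Agent.TH545.Nag.finite_tri d)
    (fun m hm => ⟨hm.1, hm.2.1⟩) h
    (x := fun i => z (i, 0)) (y := fun i => z (i, 1)) hxy
  have h0 := key (toL ℂ f).coeff (by
    apply toL_support
    intro s hs
    have h3 := hfd s hs
    rw [Finsupp.degree_eq_sum, Fin.sum_univ_two] at h3
    exact h3) (fun i => LM_of_pt (hx i) (hy i) (P := fun j => z (i, j)) rfl rfl (hf i))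
  exact toL_eq_zero h0

open Filter in
theorem ev_pos {a : ℝ} (ha : 0 < a) (b : ℝ) : ∀ᶠ N : ℕ in atTop, b < a * N := by
  have h : Tendsto (fun N : ℕ => a * (N : ℝ)) atTop atTop :=
    Tendsto.const_mul_atTop ha tendsto_natCast_atTop_atTop
  exact h.eventually_gt_atTop b

open Filter in
theorem arith {n : ℕ} (x : Fin n → ℝ) (hx : ∀ i, 0 < x i) {m : ℝ} (hm : 0 < m)
    (hsq : ∑ i, x i ^ 2 = m ^ 2) (w : Fin n → ℕ) (d : ℕ) (hd : m * d < ∑ i, x i * w i) :
    ∃ (s D D' : ℕ) (v W : Fin n → ℕ), D = s * d + D' ∧ (∀ i, W i = s * w i + v i) ∧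
      (∀ i, x i * D < m * ((W i + 1 : ℕ) : ℝ)) ∧
      ∑ i, (v i + 1) * (v i + 1 + 1) < (D' + 1) * (D' + 2) := by
  obtain ⟨η, hη⟩ : ∃ η : ℝ, η = ∑ i, x i * w i - m * d := ⟨_, rfl⟩
  have hη0 : 0 < η := by rw [hη]; linarith
  obtain ⟨s, hs⟩ := exists_nat_gt (3 * (∑ i, x i) / η)
  rw [div_lt_iff₀ hη0] at hs
  have hs0 : 3 * (∑ i, x i) < s * η := hs
  have hsη : 0 ≤ (s : ℝ) * η := by positivity
  have ha : 0 < m + 2 * (s * η) - 3 * ∑ i, x i := by linarith
  have hev : ∀ᶠ N : ℕ in atTop,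
      (∑ i, (1 - (s : ℝ) * w i) * (2 - (s : ℝ) * w i)) - ((s * d : ℝ) ^ 2 - s * d) <
        (m + 2 * (s * η) - 3 * ∑ i, x i) * N ∧ (s * d : ℝ) < m * N ∧
        ∀ i, (s * w i : ℝ) < x i * N :=
    (ev_pos ha _).and ((ev_pos hm _).and (eventually_all.2 fun i => ev_pos (hx i) _))
  obtain ⟨N, hN1, hN2, hN3⟩ := hev.exists
  -- the degree and the multiplicities of the auxiliary polynomial
  have hN0 : (0 : ℝ) ≤ N := Nat.cast_nonneg N
  have hD0 : s * d ≤ ⌊m * N⌋₊ := by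
    apply Nat.le_floor
    push_cast
    exact hN2.le
  have hv0 : ∀ i, s * w i ≤ ⌊x i * N⌋₊ := by
    intro i
    apply Nat.le_floor
    push_cast
    exact (hN3 i).le
  obtain ⟨D', hD'⟩ := Nat.exists_eq_add_of_le hD0
  choose v' hv' using fun i => Nat.exists_eq_add_of_le (hv0 i)
  have hDf : m * N < ⌊m * N⌋₊ + 1 := Nat.lt_floor_add_one _
  have hDl : (⌊m * N⌋₊ : ℝ) ≤ m * N := Nat.floor_le (by positivity)
  have hvf : ∀ i, x i * N < ⌊x i * N⌋₊ + 1 := fun i => Nat.lt_floor_add_one _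
  have hvl : ∀ i, (⌊x i * N⌋₊ : ℝ) ≤ x i * N := fun i =>
    Nat.floor_le (mul_nonneg (hx i).le hN0)
  have hDR : (⌊m * N⌋₊ : ℝ) = s * d + D' := by
    rw [hD']; push_cast; ring
  have hvR : ∀ i, (⌊x i * N⌋₊ : ℝ) = s * w i + v' i := by
    intro i; rw [hv' i]; push_cast; ring
  refine ⟨s, ⌊m * N⌋₊, D', v', fun i => ⌊x i * N⌋₊, hD', hv', ?_, ?_⟩
  · intro i
    have h1 : x i * (⌊m * N⌋₊ : ℝ) ≤ x i * (m * N) := mul_le_mul_of_nonneg_left hDl (hx i).le
    have h2 : m * (x i * N) < m * ((⌊x i * N⌋₊ + 1 : ℕ) : ℝ) := by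
      push_cast
      exact mul_lt_mul_of_pos_left (hvf i) hm
    calc x i * (⌊m * N⌋₊ : ℝ) ≤ x i * (m * N) := h1
      _ = m * (x i * N) := by ring
      _ < _ := h2
  -- the count
  · have h1 : ∑ i, ((v' i : ℝ) + 1) * ((v' i : ℝ) + 1 + 1) ≤
        ∑ i, (x i * N + (1 - s * w i)) * (x i * N + (2 - s * w i)) := by
      refine Finset.sum_le_sum fun i _ => ?_
      have h2 : (v' i : ℝ) + 1 ≤ x i * N + (1 - s * w i) := by
        have := hvl i
        rw [hvR i] at this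
        linarith
      have h3 : (v' i : ℝ) + 1 + 1 ≤ x i * N + (2 - s * w i) := by linarith
      have h4 : (0 : ℝ) ≤ v' i := Nat.cast_nonneg _
      exact mul_le_mul h2 h3 (by linarith) (by linarith)
    have h5 : ∑ i, (x i * N + (1 - s * w i)) * (x i * N + (2 - s * w i)) =
        m ^ 2 * (N : ℝ) ^ 2 + (3 * (∑ i, x i) - 2 * s * (∑ i, x i * w i)) * N +
          ∑ i, (1 - (s : ℝ) * w i) * (2 - (s : ℝ) * w i) := by
      rw [← hsq, Finset.sum_mul, Finset.mul_sum, Finset.mul_sum, ← Finset.sum_sub_distrib,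
        Finset.sum_mul, ← Finset.sum_add_distrib, ← Finset.sum_add_distrib]
      refine Finset.sum_congr rfl fun i _ => ?_
      ring
    have h6 : (m * N - s * d) * (m * N - s * d + 1) < ((D' : ℝ) + 1) * ((D' : ℝ) + 2) := by
      have h7 : m * N - s * d < (D' : ℝ) + 1 := by
        rw [hDR] at hDf
        linarith
      have h8 : 0 < m * N - s * d := by linarith
      nlinarith
    have h9 : (m * N - s * d) * (m * N - s * d + 1) =
        m ^ 2 * (N : ℝ) ^ 2 + (m - 2 * (s * (m * d))) * N + ((s * d : ℝ) ^ 2 - s * d) := by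
      ring
    have h10 : s * η = s * (∑ i, x i * w i) - s * (m * d) := by
      rw [hη]; ring
    have h11 : (∑ i, ((v' i : ℝ) + 1) * ((v' i : ℝ) + 1 + 1)) < ((D' : ℝ) + 1) * ((D' : ℝ) + 2) := by
      refine lt_of_le_of_lt h1 (lt_of_le_of_lt ?_ h6)
      rw [h5, h9]
      rw [h10] at hN1
      nlinarith
    exact_mod_cast h11

theorem two_choose (k : ℕ) : 2 * (k + 1).choose 2 = k * (k + 1) := by
  induction k with
  | zero => rfl
  | succ k ih =>
    rw [Nat.choose_succ_succ' (k + 1) 1, Nat.choose_one_right, mul_add]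
    have : 2 * (k + 1).choose (1 + 1) = k * (k + 1) := ih
    rw [this]
    ring

theorem deg_iff {f : MvPolynomial (Fin (1 + 1)) ℂ} {d : ℕ} :
    (∀ α, MvPolynomial.coeff α f ≠ 0 → Finsupp.degree α ≤ d) ↔ f.totalDegree ≤ d := by
  unfold MvPolynomial.totalDegree
  rw [Finset.sup_le_iff]
  constructor
  · intro h α hα
    exact h α (MvPolynomial.mem_support_iff.1 hα)
  · intro h α hα
    exact h α (MvPolynomial.mem_support_iff.2 hα)

/-- the dimension count -/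
theorem exists_poly {n : ℕ} (v : Fin n → ℕ) (P : Fin n → Fin (1 + 1) → ℂ) (D : ℕ)
    (h : ∑ i, v i * (v i + 1) < (D + 1) * (D + 2)) :
    ∃ g : MvPolynomial (Fin (1 + 1)) ℂ, g ≠ 0 ∧ (∀ i, g ∈ Pool.Agent.H932R5.pt (P i) ^ v i) ∧
      (∀ α, MvPolynomial.coeff α g ≠ 0 → Finsupp.degree α ≤ D) := by
  by_contra hno
  have he : NB.Emp v P D := by
    intro g h1 h2
    by_contra h0
    exact hno ⟨g, h0, h1, h2⟩
  have h1 := (NB.emp_iff.1 he).finrank
  have h2 := Pool.Agent.H932R5.finrank_ge (E := 1) D v P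
  rw [h1, add_zero] at h2
  have h3 : 2 * (D + 1 + 1).choose (1 + 1) ≤ ∑ i, 2 * (v i + 1).choose (1 + 1) := by
    rw [← Finset.mul_sum]
    exact Nat.mul_le_mul_left 2 h2
  have h4 : 2 * (D + 1 + 1).choose (1 + 1) = (D + 1) * (D + 2) := two_choose (D + 1)
  have h5 : ∑ i, 2 * (v i + 1).choose (1 + 1) = ∑ i, v i * (v i + 1) :=
    Finset.sum_congr rfl fun i _ => two_choose (v i)
  rw [h4, h5] at h3
  omega

theorem nf_of_star {n : ℕ} (x : Fin n → ℝ) (hx : ∀ i, 0 < x i) {m : ℝ} (hm : 0 < m)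
    (hsq : ∑ i, x i ^ 2 = m ^ 2)
    (star : ∀ (w : Fin n → ℕ) (d : ℕ), (∀ i, x i * d < m * w i) →
      Emp w {q : ℤ × ℤ | 0 ≤ q.1 ∧ 0 ≤ q.2 ∧ q.1 + q.2 ≤ (d : ℤ)}) :
    NB.Nf ℂ x m := by
  intro w d hd
  obtain ⟨z, hz⟩ := Pool.Agent.TH698.NagT3.exists_indep (Fin n × Fin 2)
  refine ⟨fun i j => z (i, j), ?_⟩
  intro f hf hfd
  by_contra hf0
  obtain ⟨s, D, D', v, W, hD, hW, hxD, hcount⟩ := arith x hx hm hsq w d hd
  obtain ⟨g, hg0, hgm, hgd⟩ := exists_poly (fun i => v i + 1) (fun i j => z (i, j)) D' hcount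
  have hprod : g * f ^ s ≠ 0 := mul_ne_zero hg0 (pow_ne_zero _ hf0)
  apply hprod
  have hemp := star (fun i => W i + 1) D hxD
  refine nbEmp_indep hemp hz _ (fun i => ?_) ?_
  · have h1 : W i + 1 = (v i + 1) + w i * s := by
      rw [hW i]; ring
    show g * f ^ s ∈ Pool.Agent.H932R5.pt (fun j => z (i, j)) ^ (W i + 1)
    rw [h1, pow_add, pow_mul]
    exact Ideal.mul_mem_mul (hgm i) (Ideal.pow_mem_pow (hf i) s)
  · rw [deg_iff]
    have h1 := deg_iff.1 hgd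
    have h2 := deg_iff.1 hfd
    calc (g * f ^ s).totalDegree ≤ g.totalDegree + (f ^ s).totalDegree :=
          MvPolynomial.totalDegree_mul _ _
      _ ≤ D' + s * d := by
          refine Nat.add_le_add h1 ((MvPolynomial.totalDegree_pow _ _).trans ?_)
          exact Nat.mul_le_mul_left s h2
      _ = D := by rw [hD]; ring

end Pool.Agent.TH146.MN.NF
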