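import Pool.Agent.H15.G.R_seed8.TH793.NG.Key

/-! Emptiness on the weighted plane `P(1, 1, k ^ 2)` gives emptiness in the plane: degeneration
along the cuspidal curve `y ^ k = x ^ (k - 1)`. -/

set_option autoImplicit false

namespace Pool.Agent.TH146.MN.P2

open Pool.Agent.TH603.EL Pool.Agent.TH603.EL.Scal2 Pool.Agent.TH176.Nag Pool.Agent.TH793.NG

section dec
variable {F : Type} [Field F]

/-- the equation of the cuspidal curve -/
noncomputable def hc (F : Type) [Field F] (k : ℕ) : PXY F :=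
  Polynomial.X ^ k - Polynomial.C (Polynomial.X ^ (k - 1))

/-- the terms of the expansion -/
noncomputable def tm (k : ℕ) (m : ℕ × ℕ × ℕ) (c : HK F) : PXY F :=
  Polynomial.C (Polynomial.C c * Polynomial.X ^ m.1) * Polynomial.X ^ m.2.1 * hc F k ^ m.2.2

theorem tm_zero (k : ℕ) (m : ℕ × ℕ × ℕ) : tm k m (0 : HK F) = 0 := by
  unfold tm; simp

theorem tm_add (k : ℕ) (m : ℕ × ℕ × ℕ) (c c' : HK F) :
    tm k m (c + c') = tm k m c + tm k m c' := by
  unfold tm
  rw [Polynomial.C_add, add_mul, Polynomial.C_add, add_mul, add_mul]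

/-- expansions in powers of the equation -/
def Gd (k e : ℕ) (p : PXY F) : Prop :=
  ∃ α : (ℕ × ℕ × ℕ) →₀ HK F, (∀ m ∈ α.support, m.2.1 < k ∧ m.1 + m.2.1 + k * m.2.2 ≤ e) ∧
    p = α.sum (tm k)

theorem Gd.zero {k e : ℕ} : Gd k e (0 : PXY F) :=
  ⟨0, by simp, by simp⟩

theorem Gd.add {k e : ℕ} {p q : PXY F} (hp : Gd k e p) (hq : Gd k e q) : Gd k e (p + q) := by
  classical
  obtain ⟨α, h1, rfl⟩ := hp
  obtain ⟨β, h2, rfl⟩ := hq
  refine ⟨α + β, ?_, ?_⟩
  · intro m hm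
    rcases Finset.mem_union.1 (Finsupp.support_add hm) with h | h
    · exact h1 m h
    · exact h2 m h
  · rw [Finsupp.sum_add_index' (tm_zero k) (tm_add k)]

theorem Gd.sum {k e : ℕ} {κ : Type*} (t : Finset κ) (f : κ → PXY F)
    (h : ∀ i ∈ t, Gd k e (f i)) : Gd k e (∑ i ∈ t, f i) := by
  classical
  induction t using Finset.induction_on with
  | empty => simpa using Gd.zero
  | insert i t hi ih =>
    rw [Finset.sum_insert hi]
    exact (h i (Finset.mem_insert_self _ _)).add (ih fun j hj => h j (Finset.mem_insert_of_mem hj))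

theorem Gd.mulh {k e : ℕ} {p : PXY F} (hp : Gd k e p) : Gd k (e + k) (p * hc F k) := by
  classical
  obtain ⟨α, h1, rfl⟩ := hp
  refine ⟨α.mapDomain (fun m => (m.1, m.2.1, m.2.2 + 1)), ?_, ?_⟩
  · intro m hm
    obtain ⟨m', hm', rfl⟩ := Finset.mem_image.1 (Finsupp.mapDomain_support hm)
    obtain ⟨h2, h3⟩ := h1 m' hm'
    refine ⟨h2, ?_⟩
    simp only
    rw [mul_add, mul_one]
    omega
  · rw [Finsupp.sum_mapDomain_index (tm_zero k) (tm_add k), Finsupp.sum, Finsupp.sum,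
      Finset.sum_mul]
    refine Finset.sum_congr rfl fun m _ => ?_
    unfold tm
    simp only
    rw [pow_succ, mul_assoc]

theorem Gd.single {k e a b : ℕ} (c : HK F) (hb : b < k) (hab : a + b ≤ e) :
    Gd k e (Polynomial.C (Polynomial.C c * Polynomial.X ^ a) * Polynomial.X ^ b) := by
  classical
  refine ⟨Finsupp.single (a, b, 0) c, ?_, ?_⟩
  · intro m hm
    have h1 := Finset.mem_singleton.1 (Finsupp.support_single_subset hm)
    subst h1
    simp only
    exact ⟨hb, by omega⟩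
  · rw [Finsupp.sum_single_index (tm_zero k _)]
    unfold tm
    simp only
    rw [pow_zero, mul_one]

theorem Gd.mono_pow {k : ℕ} (hk : 1 ≤ k) (b : ℕ) : ∀ (e a : ℕ) (c : HK F), a + b ≤ e →
    Gd k e (Polynomial.C (Polynomial.C c * Polynomial.X ^ a) * Polynomial.X ^ b) := by
  induction b using Nat.strong_induction_on with
  | _ b ih =>
    intro e a c hab
    by_cases hb : b < k
    · exact Gd.single c hb hab
    · obtain ⟨b', rfl⟩ := Nat.exists_eq_add_of_le (not_lt.1 hb)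
      have e1 : Polynomial.C (Polynomial.C c * Polynomial.X ^ a) * Polynomial.X ^ (k + b') =
          (Polynomial.C (Polynomial.C c * Polynomial.X ^ a) * Polynomial.X ^ b') * hc F k +
            Polynomial.C (Polynomial.C c * Polynomial.X ^ (a + (k - 1))) * Polynomial.X ^ b' := by
        unfold hc
        have e2 : (Polynomial.C (Polynomial.C c * Polynomial.X ^ (a + (k - 1))) : PXY F) =
            Polynomial.C (Polynomial.C c * Polynomial.X ^ a) *
              Polynomial.C (Polynomial.X ^ (k - 1)) := by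
          rw [← Polynomial.C_mul, pow_add, mul_assoc]
        rw [e2, pow_add]
        ring
      rw [e1]
      have h3 : e = (e - k) + k := by omega
      refine Gd.add ?_ (ih b' (by omega) e _ c (by omega))
      rw [h3]
      exact Gd.mulh (ih b' (by omega) (e - k) a c (by omega))

theorem pf_gd {k d : ℕ} (hk : 1 ≤ k) {f : (ℤ × ℤ) →₀ HK F}
    (hf : ∀ m ∈ f.support, 0 ≤ m.1 ∧ 0 ≤ m.2 ∧ m.1 + m.2 ≤ (d : ℤ)) : Gd k d (pf f) := by
  unfold pf
  apply Gd.sum
  intro m hm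
  obtain ⟨h1, h2, h3⟩ := hf m hm
  exact Gd.mono_pow hk _ _ _ _ (by omega)

end dec

section lc
variable {F : Type} [Field F]

/-- the coefficient of `t ^ v` is the first one and is a monomial -/
def Lc (u : HR F) (v : ℝ) (m : ℤ × ℤ) (c : F) : Prop :=
  Low u v ∧ u.coeff v = AddMonoidAlgebra.single m c

theorem Lc.mul {u u' : HR F} {v v' : ℝ} {m m' : ℤ × ℤ} {c c' : F} (h : Lc u v m c)
    (h' : Lc u' v' m' c') : Lc (u * u') (v + v') (m + m') (c * c') := by
  refine ⟨h.1.mul h'.1, ?_⟩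
  rw [h.1.coeff_mul h'.1, h.2, h'.2, AddMonoidAlgebra.single_mul_single]

theorem Lc.one : Lc (1 : HR F) 0 0 1 := by
  refine ⟨low_one, ?_⟩
  rw [HahnSeries.coeff_one, if_pos rfl]
  rfl

theorem Lc.pow {u : HR F} {v : ℝ} {m : ℤ × ℤ} {c : F} (h : Lc u v m c) (n : ℕ) :
    Lc (u ^ n) (n * v) (n • m) (c ^ n) := by
  induction n with
  | zero =>
    rw [pow_zero, pow_zero, zero_smul, Nat.cast_zero, zero_mul]
    exact Lc.one
  | succ n ih =>
    have h1 := ih.mul h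
    rw [← pow_succ, ← pow_succ, ← succ_nsmul] at h1
    have h2 : (n : ℝ) * v + v = ((n + 1 : ℕ) : ℝ) * v := by push_cast; ring
    rw [h2] at h1
    exact h1

theorem Lc.add {u u' : HR F} {v : ℝ} {m : ℤ × ℤ} {c c' : F} (h : Lc u v m c)
    (h' : Lc u' v m c') : Lc (u + u') v m (c + c') := by
  refine ⟨h.1.add h'.1, ?_⟩
  rw [HahnSeries.coeff_add, h.2, h'.2, AddMonoidAlgebra.single_add]

theorem Lc.zero {v : ℝ} {m : ℤ × ℤ} : Lc (0 : HR F) v m 0 := by
  refine ⟨low_zero v, ?_⟩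
  rw [HahnSeries.coeff_zero, AddMonoidAlgebra.single_zero]

theorem Lc.sum {κ : Type*} (t : Finset κ) (f : κ → HR F) {v : ℝ} {m : ℤ × ℤ} {c : F}
    (h : ∀ i ∈ t, Lc (f i) v m c) : Lc (∑ i ∈ t, f i) v m (t.card * c) := by
  classical
  induction t using Finset.induction_on with
  | empty =>
    rw [Finset.sum_empty, Finset.card_empty, Nat.cast_zero, zero_mul]
    exact Lc.zero
  | insert i t hi ih =>
    rw [Finset.sum_insert hi, Finset.card_insert_of_notMem hi]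
    have h1 := (h i (Finset.mem_insert_self _ _)).add (ih fun j hj => h j (Finset.mem_insert_of_mem hj))
    have h2 : c + (t.card : F) * c = ((t.card + 1 : ℕ) : F) * c := by push_cast; ring
    rw [h2] at h1
    exact h1

theorem Lc.tz (a : ℝ) (i j : ℤ) : Lc (tz F a i j) a (i, j) 1 := ⟨low_tz a i j, coeff_tz a i j⟩

theorem Lc.incl {c : HK F} {v : ℝ} (h : Low c v) : Lc (incl c) v 0 (c.coeff v) := by
  refine ⟨h.incl, ?_⟩
  ext ⟨i, j⟩
  have := cf_incl c v i j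
  unfold cf at this
  rw [this, AddMonoidAlgebra.coeff_single, Finsupp.single_apply]
  refine if_congr ?_ rfl rfl
  rw [Prod.ext_iff]
  simp only [Prod.fst_zero, Prod.snd_zero]
  constructor <;> rintro ⟨h1, h2⟩ <;> exact ⟨h1.symm, h2.symm⟩

theorem Lc.cf {u : HR F} {v : ℝ} {m : ℤ × ℤ} {c : F} (h : Lc u v m c) (i j : ℤ) :
    cf u v i j = if m = (i, j) then c else 0 := by
  classical
  unfold Pool.Agent.TH603.EL.cf
  rw [h.2, AddMonoidAlgebra.coeff_single, Finsupp.single_apply]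

end lc

section coord
variable (F : Type) [Field F]

/-- the first coordinate -/
noncomputable def xc (k : ℕ) : HR F := tz F 0 k 0
/-- the second coordinate on the curve -/
noncomputable def ac (k : ℕ) : HR F := tz F 0 ((k : ℤ) - 1) 0
/-- the second coordinate -/
noncomputable def yc (k : ℕ) : HR F := ac F k + tz F 1 (-((k : ℤ) - 1) ^ 2) 1

variable {F}

theorem lc_yc (k : ℕ) : Lc (yc F k) 0 ((k : ℤ) - 1, 0) 1 := by
  have h1 : Low (tz F 1 (-((k : ℤ) - 1) ^ 2) 1) 0 := (low_tz 1 _ _).mono zero_le_one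
  refine ⟨(low_tz 0 _ _).add h1, ?_⟩
  unfold yc
  rw [HahnSeries.coeff_add, low_tz 1 _ _ 0 zero_lt_one, add_zero]
  exact coeff_tz 0 _ _

theorem xc_pow {k : ℕ} (hk : 1 ≤ k) : xc F k ^ (k - 1) = ac F k ^ k := by
  unfold xc ac
  rw [Scal1.tz_pow, Scal1.tz_pow]
  push_cast [Nat.cast_sub hk]
  congr 1 <;> ring

theorem ev_hc {k : ℕ} (hk : 1 ≤ k) : EV (xc F k) (yc F k) (hc F k) = yc F k ^ k - ac F k ^ k := by
  unfold hc
  rw [EV_sub, EV_pow, EV_X, EV_C]
  unfold evA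
  rw [Polynomial.eval₂_X_pow, xc_pow hk]

theorem lc_hc {k : ℕ} (hk : 1 ≤ k) : Lc (EV (xc F k) (yc F k) (hc F k)) 1 (0, 1) (k : F) := by
  rw [ev_hc hk, ← geom_sum₂_mul]
  have h1 : Lc (∑ i ∈ Finset.range k, yc F k ^ i * ac F k ^ (k - 1 - i)) 0
      (((k : ℤ) - 1) ^ 2, 0) ((Finset.range k).card * (1 : F)) := by
    apply Lc.sum
    intro i hi
    rw [Finset.mem_range] at hi
    have h2 := ((lc_yc (F := F) k).pow i).mul ((Lc.tz (F := F) 0 ((k : ℤ) - 1) 0).pow (k - 1 - i))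
    rw [mul_zero, mul_zero, add_zero, one_pow, one_pow, mul_one] at h2
    have h3 : i • ((k : ℤ) - 1, (0 : ℤ)) + (k - 1 - i) • ((k : ℤ) - 1, (0 : ℤ)) =
        (((k : ℤ) - 1) ^ 2, 0) := by
      have h4 : ((k - 1 - i : ℕ) : ℤ) = (k : ℤ) - 1 - i := by omega
      ext
      · simp only [Prod.fst_add, Prod.smul_fst]
        rw [nsmul_eq_mul, nsmul_eq_mul, h4]; ring
      · simp
    rw [h3] at h2
    exact h2
  have h5 : yc F k - ac F k = tz F 1 (-((k : ℤ) - 1) ^ 2) 1 := by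
    unfold yc; ring
  rw [h5]
  have h6 := h1.mul (Lc.tz (F := F) 1 (-((k : ℤ) - 1) ^ 2) 1)
  rw [Finset.card_range, mul_one, mul_one, zero_add] at h6
  have h7 : (((k : ℤ) - 1) ^ 2, (0 : ℤ)) + (-((k : ℤ) - 1) ^ 2, (1 : ℤ)) = (0, 1) := by
    ext
    · simp only [Prod.fst_add]; ring
    · simp
  rw [h7] at h6
  exact h6

theorem lc_tm {k : ℕ} (hk : 1 ≤ k) (m : ℕ × ℕ × ℕ) {c : HK F} {v : ℝ} (h : Low c v) :
    Lc (EV (xc F k) (yc F k) (tm k m c)) (v + m.2.2)
      ((k : ℤ) * m.1 + ((k : ℤ) - 1) * m.2.1, m.2.2) (c.coeff v * (k : F) ^ m.2.2) := by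
  have h1 : EV (xc F k) (yc F k) (tm k m c) = incl c * xc F k ^ m.1 * yc F k ^ m.2.1 *
      EV (xc F k) (yc F k) (hc F k) ^ m.2.2 := by
    unfold tm
    rw [map_mul, map_mul, EV_C, EV_pow, EV_pow, EV_X]
    unfold evA
    rw [Polynomial.eval₂_mul, Polynomial.eval₂_C, Polynomial.eval₂_X_pow]
  rw [h1]
  have h2 := (((Lc.incl h).mul ((Lc.tz (F := F) 0 (k : ℤ) 0).pow m.1)).mul
    ((lc_yc (F := F) k).pow m.2.1)).mul ((lc_hc (F := F) hk).pow m.2.2)
  rw [mul_zero, mul_zero, add_zero, add_zero, mul_one, one_pow, one_pow, mul_one, mul_one] at h2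
  have h3 : (0 : ℤ × ℤ) + m.1 • ((k : ℤ), (0 : ℤ)) + m.2.1 • ((k : ℤ) - 1, (0 : ℤ)) +
      m.2.2 • ((0 : ℤ), (1 : ℤ)) = ((k : ℤ) * m.1 + ((k : ℤ) - 1) * m.2.1, (m.2.2 : ℤ)) := by
    ext
    · simp only [Prod.fst_add, Prod.smul_fst, Prod.fst_zero]
      rw [nsmul_eq_mul, nsmul_eq_mul, nsmul_eq_mul]; ring
    · simp
  rw [h3] at h2
  exact h2

end coord

/-- the exponents determine the terms -/
theorem exp_inj {k : ℕ} {a b a' b' : ℕ} (hb : b < k) (hb' : b' < k)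
    (h : (k : ℤ) * a + ((k : ℤ) - 1) * b = (k : ℤ) * a' + ((k : ℤ) - 1) * b') :
    a = a' ∧ b = b' := by
  have h1 : (k : ℤ) * ((a : ℤ) + b - a' - b') = (b : ℤ) - b' := by linear_combination h
  have hk : (0 : ℤ) < k := by omega
  have h2 : (a : ℤ) + b - a' - b' = 0 := by
    by_contra hne
    rcases lt_or_gt_of_ne hne with h3 | h3
    · have : (k : ℤ) * ((a : ℤ) + b - a' - b') ≤ k * (-1) :=
        mul_le_mul_of_nonneg_left (by omega) hk.le
      omega
    · have : (k : ℤ) * 1 ≤ (k : ℤ) * ((a : ℤ) + b - a' - b') :=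
        mul_le_mul_of_nonneg_left (by omega) hk.le
      omega
  rw [h2, mul_zero] at h1
  omega

section lead
variable {F : Type} [Field F] [CharZero F]

/-- the leading coefficient of a polynomial of degree at most `d` on the tube -/
theorem cusp_lead {k d : ℕ} (hk : 1 ≤ k) {p : PXY F} (hp : p ≠ 0) (hg : Gd k d p) :
    ∃ n : ℝ, (∃ i j, cf (EV (xc F k) (yc F k) p) n i j ≠ 0) ∧
      ∀ i j, cf (EV (xc F k) (yc F k) p) n i j ≠ 0 →
        0 ≤ i ∧ 0 ≤ j ∧ i + (k : ℤ) ^ 2 * j ≤ (k : ℤ) * d := by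
  classical
  obtain ⟨α, hα, rfl⟩ := hg
  have hne : α.support.Nonempty := by
    rw [Finset.nonempty_iff_ne_empty]
    intro h
    apply hp
    rw [Finsupp.support_eq_empty.1 h, Finsupp.sum_zero_index]
  obtain ⟨m0, hm0, hmin⟩ := Finset.exists_min_image α.support
    (fun m => (α m).order + (m.2.2 : ℝ)) hne
  obtain ⟨n, hn⟩ : ∃ n : ℝ, n = (α m0).order + (m0.2.2 : ℝ) := ⟨_, rfl⟩
  have hlow : ∀ m ∈ α.support, Low (α m) (n - m.2.2) := by
    intro m hm a ha
    apply HahnSeries.coeff_eq_zero_of_lt_order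
    have h9 : (α m0).order + (m0.2.2 : ℝ) ≤ (α m).order + (m.2.2 : ℝ) := hmin m hm
    linarith
  have hval : ∀ i j, cf (EV (xc F k) (yc F k) (α.sum (tm k))) n i j =
      ∑ m ∈ α.support, if ((k : ℤ) * m.1 + ((k : ℤ) - 1) * m.2.1, (m.2.2 : ℤ)) = (i, j) then
        (α m).coeff (n - m.2.2) * (k : F) ^ m.2.2 else 0 := by
    intro i j
    rw [Finsupp.sum, map_sum, cf_sum]
    refine Finset.sum_congr rfl fun m hm => ?_
    have h1 := lc_tm (F := F) hk m (hlow m hm)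
    rw [sub_add_cancel] at h1
    exact h1.cf i j
  have hkF : (k : F) ≠ 0 := by
    have : k ≠ 0 := by omega
    exact_mod_cast this
  refine ⟨n, ⟨(k : ℤ) * m0.1 + ((k : ℤ) - 1) * m0.2.1, m0.2.2, ?_⟩, ?_⟩
  · rw [hval, Finset.sum_eq_single m0]
    · rw [if_pos rfl]
      refine mul_ne_zero ?_ (pow_ne_zero _ hkF)
      have h1 : n - m0.2.2 = (α m0).order := by rw [hn]; ring
      rw [h1]
      exact HahnSeries.coeff_order_eq_zero.not.2 (Finsupp.mem_support_iff.1 hm0)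
    · intro m hm hmm
      rw [if_neg]
      intro h
      apply hmm
      have h1 := (Prod.ext_iff.1 h).1
      have h2 := (Prod.ext_iff.1 h).2
      simp only at h1 h2
      obtain ⟨h3, h4⟩ := exp_inj (hα m hm).1 (hα m0 hm0).1 h1
      have h5 : m.2.2 = m0.2.2 := by exact_mod_cast h2
      exact Prod.ext h3 (Prod.ext h4 h5)
    · intro h; exact absurd hm0 h
  · intro i j h
    rw [hval] at h
    obtain ⟨m, hm, hm'⟩ := Finset.exists_ne_zero_of_sum_ne_zero h
    have h1 : ((k : ℤ) * m.1 + ((k : ℤ) - 1) * m.2.1, (m.2.2 : ℤ)) = (i, j) := by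
      by_contra hcon
      exact hm' (if_neg hcon)
    have h2 := (Prod.ext_iff.1 h1).1
    have h3 := (Prod.ext_iff.1 h1).2
    simp only at h2 h3
    obtain ⟨h4, h5⟩ := hα m hm
    have h6 : (m.1 : ℤ) + m.2.1 + k * m.2.2 ≤ d := by exact_mod_cast h5
    have hk1 : (1 : ℤ) ≤ k := by exact_mod_cast hk
    have h7 : (0 : ℤ) ≤ m.1 := Int.natCast_nonneg _
    have h8 : (0 : ℤ) ≤ m.2.1 := Int.natCast_nonneg _
    have h9 : (0 : ℤ) ≤ m.2.2 := Int.natCast_nonneg _
    have h10 : (k : ℤ) * ((m.1 : ℤ) + m.2.1 + k * m.2.2) ≤ k * d :=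
      mul_le_mul_of_nonneg_left h6 (by omega)
    have h11 : 0 ≤ (k : ℤ) * m.1 := mul_nonneg (by omega) h7
    have h12 : 0 ≤ ((k : ℤ) - 1) * m.2.1 := mul_nonneg (by omega) h8
    rw [← h2, ← h3]
    refine ⟨by linarith, h9, ?_⟩
    nlinarith

end lead

/-- emptiness on the weighted plane gives emptiness in the plane -/
theorem Emp_cusp {ι : Type} {w : ι → ℕ} {k d : ℕ} (hk : 1 ≤ k)
    (h : Emp w {m : ℤ × ℤ | 0 ≤ m.1 ∧ 0 ≤ m.2 ∧ m.1 + (k : ℤ) ^ 2 * m.2 ≤ (k : ℤ) * d}) :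
    Emp w {m : ℤ × ℤ | 0 ≤ m.1 ∧ 0 ≤ m.2 ∧ m.1 + m.2 ≤ (d : ℤ)} := by
  obtain ⟨F, _, _, x, y, hx, hy, hE⟩ := h
  have hchar : CharZero (HK F) :=
    charZero_of_injective_ringHom (f := (HahnSeries.C : F →+* HK F)) HahnSeries.C_injective
  have hU : ∀ i l, evp (hx i) (hy i) (UU (xc F k) (yc F k) l) ≠ 0 := by
    intro i l
    unfold UU
    split_ifs
    · rw [map_one]; exact one_ne_zero
    · exact Van1.ne_of_coeff (hx i) (hy i) (a := 0) (i := (k : ℤ)) (j := 0) (coeff_tz 0 _ _)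
    · exact Van1.ne_of_coeff (hx i) (hy i) (a := 0) (i := (k : ℤ) - 1) (j := 0) (lc_yc k).2
  refine ⟨HK F, inferInstance, hchar,
    fun i => evp (hx i) (hy i) (UU (xc F k) (yc F k) 1) /
      evp (hx i) (hy i) (UU (xc F k) (yc F k) 0),
    fun i => evp (hx i) (hy i) (UU (xc F k) (yc F k) 2) /
      evp (hx i) (hy i) (UU (xc F k) (yc F k) 0),
    fun i => div_ne_zero (hU i 1) (hU i 0), fun i => div_ne_zero (hU i 2) (hU i 0), ?_⟩
  intro f hf hLM
  by_contra hne0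
  have hf0 : ∀ m ∈ f.support, 0 ≤ m.1 ∧ 0 ≤ m.2 ∧ m.1 + m.2 ≤ (d : ℤ) := fun m hm => hf hm
  obtain ⟨n, ⟨i0, j0, ha0⟩, hb0⟩ := cusp_lead (F := F) hk
    (pf_ne (fun m hm => ⟨(hf0 m hm).1, (hf0 m hm).2.1⟩) hne0) (pf_gd hk hf0)
  rw [← ev_hom _ _ d f] at ha0
  have h2 : ((ev (UU (xc F k) (yc F k)) (hom d f)).coeff n).coeff = 0 := by
    apply hE
    · intro m hm
      have hm' : cf (EV (xc F k) (yc F k) (pf f)) n m.1 m.2 ≠ 0 := by
        rw [← ev_hom _ _ d f]
        exact Finsupp.mem_support_iff.1 hm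
      exact hb0 m.1 m.2 hm'
    · intro i
      exact LM_transfer (hx i) (hy i) (hU i) hf0 (hLM i) n
  apply ha0
  unfold cf
  rw [h2]
  rfl

end Pool.Agent.TH146.MN.P2
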