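import Pool.Agent.H15.G.R_seed8.TH146.MN.RDec
import Pool.Agent.H15.G.R_seed8.TH146.MN.Key

/-! The degeneration of the weighted planes (real weights) to several triangles. -/

set_option autoImplicit false
set_option linter.unusedSectionVars false

namespace Pool.Agent.TH146.MN

open Pool.Agent.TH603.EL Pool.Agent.TH603.EL.Scal2 Pool.Agent.TH793.NG Pool.Agent.TH176.Nag

theorem pf_goodR {F : Type} [Field F] [CharZero F] {κ : Type} [Fintype κ] [DecidableEq κ]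
    {c : κ → F} {δ e : ℝ} (hδ : 2 * (Fintype.card κ : ℝ) + 1 ≤ 2 * δ) {f : (ℤ × ℤ) →₀ HK F}
    (hf : ∀ m ∈ f.support, 0 ≤ m.1 ∧ 0 ≤ m.2 ∧ (m.1 : ℝ) + δ * m.2 ≤ e) :
    GoodR c δ e (pf f) := by
  unfold pf
  apply GoodR.sum
  intro m hm
  obtain ⟨h1, h2, h3⟩ := hf m hm
  apply GoodR.mono_pow hδ
  right
  have h4 := Polynomial.natDegree_C_mul_X_pow_le (f m) m.1.toNat
  have h5 : ((m.1.toNat : ℕ) : ℝ) = m.1 := by
    have : ((m.1.toNat : ℕ) : ℤ) = m.1 := Int.toNat_of_nonneg h1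
    exact_mod_cast congrArg (Int.cast : ℤ → ℝ) this
  have h6 : ((m.2.toNat : ℕ) : ℝ) = m.2 := by
    have : ((m.2.toNat : ℕ) : ℤ) = m.2 := Int.toNat_of_nonneg h2
    exact_mod_cast congrArg (Int.cast : ℤ → ℝ) this
  rw [h6]
  have h7 : ((Polynomial.C (f m) * Polynomial.X ^ m.1.toNat : Polynomial (HK F)).natDegree : ℝ) ≤
      m.1 := by
    rw [← h5]; exact_mod_cast h4
  linarith

/-- emptiness on the triangles of all groups gives emptiness in the weighted plane -/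
theorem Emp_multiR {F : Type} [Field F] [CharZero F] {g : ℕ} (hg : 0 < g) {ι : Type}
    {gr : ι → Fin g} {w : ι → ℕ} {δ e : ℝ} (hδ : 2 * (g : ℝ) + 1 ≤ 2 * δ) (he : 0 ≤ e)
    {a b γ : Fin g → ℝ}
    (ha : ∀ l, 0 < a l) (hb : ∀ l, 0 < b l) (hab : ∀ l, a l + b l = 1)
    (hγ0 : ∀ l, 0 ≤ γ l) (hγ : ∑ l, γ l = 1) {x y : ι → F} (hx : ∀ i, x i ≠ 0)
    (hy : ∀ i, y i ≠ 0) (hx1 : ∀ i, x i ^ 2 ≠ 1)
    (hE : ∀ l, ∀ f : (ℤ × ℤ) →₀ F, (↑f.support : Set (ℤ × ℤ)) ⊆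
      Reg (-(2 * a l * γ l * e)) (2 * b l * γ l * e) (4 * δ * γ l * a l) (4 * δ * γ l * b l) →
      (∀ i, gr i = l → LM f (x i) (y i) (w i)) → f = 0) :
    Emp w {m : ℤ × ℤ | 0 ≤ m.1 ∧ 0 ≤ m.2 ∧ (m.1 : ℝ) + δ * m.2 ≤ e} := by
  classical
  have : Nonempty (Fin g) := ⟨⟨0, hg⟩⟩
  have hg' : (1 : ℝ) ≤ g := by exact_mod_cast hg
  have hδ1 : 1 ≤ δ := by linarith
  obtain ⟨σ, hσ⟩ : ∃ σ : ℝ, σ = 2 * e + 2 := ⟨_, rfl⟩
  obtain ⟨s, hs⟩ : ∃ s : Fin g → ℝ, ∀ l, s l = σ - 1 + 4 * δ * γ l * (a l * b l) :=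
    ⟨_, fun _ => rfl⟩
  have hpos : ∀ l, 0 ≤ 4 * δ * γ l * (a l * b l) := fun l => by
    have h1 := hγ0 l
    have h2 := (ha l).le
    have h3 := (hb l).le
    positivity
  have hse : ∀ l, 2 * e < s l := fun l => by
    rw [hs l, hσ]; have := hpos l; linarith
  have hs0 : ∀ l, 0 < s l := fun l => by have := hse l; linarith
  have hchar : CharZero (HK F) :=
    charZero_of_injective_ringHom (f := (HahnSeries.C : F →+* HK F)) HahnSeries.C_injective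
  have hε2 := nε_sq F g
  have hcard : 2 * (Fintype.card (Fin g) : ℝ) + 1 ≤ 2 * δ := by rwa [Fintype.card_fin]
  have hwk : ∀ l, wk (nε F g) (nc F g) l ≠ 0 := wk_ne (nε_ne F g) (nc_inj F g)
  obtain ⟨T, hT⟩ : ∃ T : Fin g → ZMod 3 → HR F, ∀ l, T l = UU (xk (nc F g) l (a l) (b l) (s l))
      (yk (nε F g) (nc F g) l (a l) (b l) (s l)) := ⟨_, fun _ => rfl⟩
  have hU : ∀ i l, evp (hx i) (hy i) (T (gr i) l) ≠ 0 := by
    intro i l
    rw [hT]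
    unfold UU
    split_ifs
    · rw [map_one]; exact one_ne_zero
    · exact evp_xk (hx i) (hy i) (ha _) (hb _) (hs0 _) (nc_ne F g _)
    · exact evp_yk (hx i) (hy i) (ha _) (hb _) (hs0 _) (hab _) hε2 (hwk _) (hx1 i)
  refine ⟨HK F, inferInstance, hchar,
    fun i => evp (hx i) (hy i) (T (gr i) 1) / evp (hx i) (hy i) (T (gr i) 0),
    fun i => evp (hx i) (hy i) (T (gr i) 2) / evp (hx i) (hy i) (T (gr i) 0),
    fun i => div_ne_zero (hU i 1) (hU i 0), fun i => div_ne_zero (hU i 2) (hU i 0), ?_⟩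
  intro f hf hLM
  by_contra hne0
  have hf0 : ∀ m ∈ f.support, 0 ≤ m.1 ∧ 0 ≤ m.2 ∧ (m.1 : ℝ) + δ * m.2 ≤ e := fun m hm => hf hm
  have hf1 : ∀ m ∈ f.support, 0 ≤ m.1 ∧ 0 ≤ m.2 ∧ m.1 + m.2 ≤ (⌈e⌉₊ : ℤ) := by
    intro m hm
    obtain ⟨h1, h2, h3⟩ := hf0 m hm
    refine ⟨h1, h2, ?_⟩
    have h4 : (0 : ℝ) ≤ m.2 := by exact_mod_cast h2
    have h5 : (m.1 : ℝ) + m.2 ≤ e := by nlinarith
    have h6 := h5.trans (Nat.le_ceil e)
    exact_mod_cast h6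
  obtain ⟨l, n, ⟨i0, j0, ha0⟩, hb0⟩ := multi_leadR (F := F) ha hb hab hε2 (nε_ne F g)
    (nc_inj F g) hcard hγ (σ := σ) (s := s) (fun l => by rw [hs l]; ring) he hse
    (pf_ne (fun m hm => ⟨(hf0 m hm).1, (hf0 m hm).2.1⟩) hne0) (pf_goodR hcard hf0)
  rw [← ev_hom _ _ ⌈e⌉₊ f] at ha0
  have h2 : ((ev (T l) (hom ⌈e⌉₊ f)).coeff n).coeff = 0 := by
    apply hE l
    · intro m hm
      have hm' : cf (EV (xk (nc F g) l (a l) (b l) (s l))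
          (yk (nε F g) (nc F g) l (a l) (b l) (s l)) (pf f)) n m.1 m.2 ≠ 0 := by
        rw [← ev_hom _ _ ⌈e⌉₊ f, ← hT]
        exact Finsupp.mem_support_iff.1 hm
      obtain ⟨h3, h4, h5⟩ := hb0 m.1 m.2 hm'
      refine ⟨h3, ?_, ?_⟩
      · linarith
      · linarith
    · intro i hi
      have := LM_transfer (hx i) (hy i) (hU i) hf1 (hLM i) n
      rwa [hi] at this
  apply ha0
  unfold cf
  rw [← hT, h2]
  rfl

end Pool.Agent.TH146.MN
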