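import Pool.Agent.H15.G.R_seed8.TH146.MN.Star2
import Pool.Agent.H15.G.R_seed8.TH207.NC.Sep
import Pool.Agent.H15.G.R_seed8.TH366.RC.Cut
import Pool.Agent.H15.G.R_seed8.TH603.EL.Key

/-! Classes all of whose weights are attained at least sixteen times. -/

set_option autoImplicit false
set_option linter.unusedSectionVars false

namespace Pool.Agent.TH146.MN

open Pool.Agent.TH176.Nag Pool.Agent.TH181.Nag

/-- emptiness on the triangles of all slopes whose height is `H` times the scale -/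
def UU' {ι : Type} [Fintype ι] (x : ι → ℝ) (H : ℝ) : Prop :=
  ∀ (w : ι → ℕ) (s : ℝ), 0 < s → (∀ i, s * x i < w i) →
    ∀ μ ν : ℝ, μ + ν = (∑ i, x i ^ 2) / H ^ 2 → TS w (s * √(∑ i, x i ^ 2)) μ ν

/-- one block in its own tube -/
theorem tube_block {ι : Type} [Fintype ι] {w : ι → ℕ} {t W s : ℝ} (hs : 0 < s) (ht : 0 < t)
    (hW : 0 < W) (htW : t ≤ W) (hn : 0 < Fintype.card ι)
    (hbig : t = W ∨ W < (Fintype.card ι : ℝ) * t) (hw : ∀ i, s * t < w i) {K : ℝ}
    (hK : K = (Fintype.card ι : ℝ) * t ^ 2 / W ^ 2) :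
    ∃ a b : ℝ, 0 < a ∧ 0 < b ∧ a + b = 1 ∧
      ∀ α : ℝ, Emp w (Reg α (α + K * (s * W)) (K * a) (K * b)) := by
  have hn' : (0 : ℝ) < Fintype.card ι := by exact_mod_cast hn
  obtain ⟨a, b, ha, hb, hab, hPS⟩ := PS_weight2 (ι := ι) (x := t / W) (div_pos ht hW)
    (by rw [div_le_one hW]; exact htW) hn (by
      rcases hbig with h | h
      · left; rw [h]; exact div_self hW.ne'
      · right
        rw [← mul_div_assoc, lt_div_iff₀ hW, one_mul]
        exact h)
  refine ⟨a, b, ha, hb, hab, fun α => ?_⟩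
  have e0 : (Fintype.card ι : ℝ) * (t / W) ^ 2 = K := by rw [hK]; ring
  rw [e0] at hPS
  have hK0 : 0 < K := by rw [hK]; positivity
  obtain ⟨n, hndef⟩ : ∃ n : ℝ, n = (Fintype.card ι : ℝ) := ⟨_, rfl⟩
  have hn0 : 0 < n := by rw [hndef]; exact hn'
  have hsn : 0 < √n := Real.sqrt_pos.2 hn0
  have hsn2 : √n ^ 2 = n := Real.sq_sqrt hn0.le
  have hmain := hPS w (√n * (s * t)) (by positivity) (by
    rw [← hndef]
    have e : √n * (√n * (s * t)) = √n ^ 2 * (s * t) := by ring
    rw [e, hsn2]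
    have h1 : ∑ _i : ι, s * t < ∑ i, (w i : ℝ) :=
      Finset.sum_lt_sum_of_nonempty (Finset.card_pos.1 (by rwa [Finset.card_univ]))
        fun i _ => hw i
    rw [Finset.sum_const, Finset.card_univ, nsmul_eq_mul, ← hndef] at h1
    exact h1) α
  have e1 : K * a + K * b = K := by rw [← mul_add, hab, mul_one]
  have e2 : √K = √n * t / W := by
    rw [hK, ← hndef]
    rw [Real.sqrt_div (by positivity), Real.sqrt_sq hW.le, Real.sqrt_mul hn0.le,
      Real.sqrt_sq ht.le]
  rw [e1, e2] at hmain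
  have e3 : √n * (s * t) * (√n * t / W) = K * (s * W) := by
    have e4 : √n * (s * t) * (√n * t / W) = √n ^ 2 * (s * t ^ 2 / W) := by ring
    rw [e4, hsn2, hK, ← hndef]
    field_simp
  rw [e3] at hmain
  exact hmain

/-- the tube of the block of largest weight together with all small weights -/
theorem tube_top {ι : Type} [Fintype ι] {x : ι → ℝ} {w : ι → ℕ} {W W2 s : ℝ} (hs : 0 < s)
    (hW : 0 < W) (hW2 : 0 < W2) (hW2W : 2 * W2 ≤ W) (hx0 : ∀ i, 0 < x i)
    (hsmall : ∃ i, x i ≠ W) (htop : 0 < Fintype.card {i // x i = W})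
    (hU : UU' (fun i : {i // ¬ x i = W} => x i.1) (2 * W2)) (hw : ∀ i, s * x i < w i) {K : ℝ}
    (hK : K = (∑ i, x i ^ 2) / W ^ 2) :
    ∃ a b : ℝ, 0 < a ∧ 0 < b ∧ a + b = 1 ∧
      ∀ α : ℝ, Emp w (Reg α (α + K * (s * W)) (K * a) (K * b)) := by
  classical
  obtain ⟨n, hn⟩ : ∃ n : ℝ, n = (Fintype.card {i // x i = W} : ℝ) := ⟨_, rfl⟩
  have hn1 : 1 ≤ n := by rw [hn]; exact_mod_cast htop
  obtain ⟨Q, hQ⟩ : ∃ Q : ℝ, Q = ∑ i : {i // ¬ x i = W}, x i.1 ^ 2 := ⟨_, rfl⟩
  have hQ0 : 0 < Q := by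
    rw [hQ]
    obtain ⟨i0, hi0⟩ := hsmall
    exact Finset.sum_pos (fun i _ => by have := hx0 i.1; positivity) ⟨⟨i0, hi0⟩, Finset.mem_univ _⟩
  have hsum : ∑ i, x i ^ 2 = n * W ^ 2 + Q := by
    rw [← (Equiv.sumCompl (fun i => x i = W)).sum_comp (fun i => x i ^ 2), Fintype.sum_sum_type,
      hQ]
    congr 1
    have h1 : ∀ i : {i // x i = W}, x ((Equiv.sumCompl (fun i => x i = W)) (Sum.inl i)) ^ 2 =
        W ^ 2 := fun i => by
      rw [Equiv.sumCompl_apply_inl, i.2]
    rw [Finset.sum_congr rfl fun i _ => h1 i, Finset.sum_const, Finset.card_univ, nsmul_eq_mul, hn]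
  obtain ⟨k2, hk2⟩ : ∃ k2 : ℝ, k2 = Q / W ^ 2 := ⟨_, rfl⟩
  have hk20 : 0 < k2 := by rw [hk2]; positivity
  have hKn : K = n + k2 := by
    rw [hK, hsum, hk2]
    field_simp
  obtain ⟨ρ, hρ⟩ : ∃ ρ : ℝ, ρ = W / (2 * W2) := ⟨_, rfl⟩
  have hρ1 : 1 ≤ ρ := by
    rw [hρ, le_div_iff₀ (by positivity)]; linarith
  obtain ⟨v, hv⟩ : ∃ v : ℤ, v = ⌊k2 * (ρ - 1)⌋ + 1 := ⟨_, rfl⟩
  obtain ⟨ν, hν⟩ : ∃ ν : ℝ, ν = v - k2 * (ρ - 1) := ⟨_, rfl⟩
  have hkρ : 0 ≤ k2 * (ρ - 1) := mul_nonneg hk20.le (by linarith)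
  have hν0 : 0 < ν := by
    rw [hν, hv]
    push_cast
    have := Int.lt_floor_add_one (k2 * (ρ - 1))
    linarith
  have hν1 : ν ≤ 1 := by
    rw [hν, hv]
    push_cast
    have := Int.floor_le (k2 * (ρ - 1))
    linarith
  have hK0 : 0 < K := by rw [hKn]; linarith
  refine ⟨(K - ν) / K, ν / K, div_pos (by linarith) hK0, div_pos hν0 hK0, ?_, fun α => ?_⟩
  · rw [← add_div, sub_add_cancel]; exact div_self hK0.ne'
  · have e1 : K * ((K - ν) / K) = K - ν := by field_simp
    have e2 : K * (ν / K) = ν := by field_simp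
    rw [e1, e2]
    -- the small weights
    have hsm : TS (fun i : {i // ¬ x i = W} => w i.1) (s * √Q) (k2 - ν) ν := by
      refine TS.stepA 1 v isCoprime_one_left (by norm_num) ?_ ?_ ?_ ?_
      · push_cast
        rw [hν]
        have : 0 ≤ k2 * ρ := by positivity
        nlinarith
      · push_cast
        linarith
      · linarith
      · have e3 : k2 - ν + ν = k2 := by ring
        rw [e3]
        have e4 : ((1 : ℤ) : ℝ) * (((1 : ℤ) : ℝ) * (k2 - ν) + v) = k2 * ρ := by
          push_cast; rw [hν]; ring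
        have e5 : ((v : ℝ) - ((1 : ℤ) : ℝ) * ν) * (((1 : ℤ) : ℝ) * (k2 - ν) + v) / k2 =
            k2 * (ρ - 1) * ρ := by
          have e6 : ((1 : ℤ) : ℝ) * (k2 - ν) + v = k2 * ρ := by push_cast; rw [hν]; ring
          have e7 : (v : ℝ) - ((1 : ℤ) : ℝ) * ν = k2 * (ρ - 1) := by push_cast; rw [hν]; ring
          rw [e6, e7]
          field_simp
        rw [e4, e5]
        have h1 := hU (fun i => w i.1) s hs (fun i => hw i.1) (k2 * ρ) (k2 * (ρ - 1) * ρ) (by
          rw [← hQ, hk2, hρ]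
          field_simp
          ring)
        rw [← hQ] at h1
        exact h1
    have hrest := hsm (α + s * (n * W))
    have e8 : s * √Q * √(k2 - ν + ν) = s * (k2 * W) := by
      have e9 : k2 - ν + ν = k2 := by ring
      rw [e9, hk2, Real.sqrt_div hQ0.le, Real.sqrt_sq hW.le]
      have e10 : √Q * √Q = Q := Real.mul_self_sqrt hQ0.le
      have e11 : s * √Q * (√Q / W) = s * ((√Q * √Q) / W) := by ring
      rw [e11, e10]
      field_simp
    rw [e8] at hrest
    have habs := Pool.Agent.TH207.NC.Emp_absorb (w := fun i : {i // ¬ x i = W} => w i.1)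
      (fun i : {i // x i = W} => w i.1) (α := α) (β := α + K * (s * W)) (μ := K - ν) (ν := ν)
      (by linarith) (by
      refine hrest.mono ?_
      rintro ⟨i, j⟩ ⟨⟨h1, h2, h3⟩, h4⟩
      simp only at h1 h2 h3 h4
      have hsumv : s * (n * W) ≤ ∑ i : {i // x i = W}, (w i.1 : ℝ) := by
        have h5 : ∑ _i : {i // x i = W}, s * W ≤ ∑ i : {i // x i = W}, (w i.1 : ℝ) :=
          Finset.sum_le_sum fun i _ => by
            have := hw i.1
            rw [i.2] at this
            exact this.le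
        rw [Finset.sum_const, Finset.card_univ, nsmul_eq_mul, ← hn] at h5
        linarith
      refine ⟨h1, ?_, ?_⟩
      · simp only
        have e12 : K - ν - (Fintype.card {i // x i = W} : ℝ) = k2 - ν := by
          rw [← hn, hKn]; ring
        rw [e12] at h4
        linarith
      · simp only
        have e13 : α + s * (n * W) + s * (k2 * W) = α + K * (s * W) := by rw [hKn]; ring
        rw [e13]
        exact h3)
    have h6 := Pool.Agent.TH366.RC.Emp_reindex (Equiv.sumCompl (fun i => x i = W)).symm habs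
    have h7 : (fun j => Sum.elim (fun i : {i // x i = W} => w i.1)
        (fun i : {i // ¬ x i = W} => w i.1) ((Equiv.sumCompl (fun i => x i = W)).symm j)) = w := by
      funext j
      by_cases hj : x j = W
      · have h8 := Equiv.sumCompl_symm_apply_of_pos (p := fun i => x i = W) hj
        simp only [h8, Sum.elim_inl]
      · have h8 := Equiv.sumCompl_symm_apply_of_neg (p := fun i => x i = W) hj
        simp only [h8, Sum.elim_inr]
    rw [h7] at h6
    exact h6

/-- emptiness for weights attained at least sixteen times, on all slopes -/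
theorem U_rep (N : ℕ) : ∀ {ι : Type} [Fintype ι] (x : ι → ℝ) (W : ℝ), Fintype.card ι ≤ N →
    (∀ i, 0 < x i) → (∀ i, x i ≤ W) → (∃ i, x i = W) →
    (∀ i, 16 ≤ Fintype.card {j // x j = x i}) → UU' x (2 * W) := by
  classical
  induction N with
  | zero =>
    intro ι _ x W hN _ _ ⟨i, _⟩ _
    have := Fintype.card_pos_iff.2 ⟨i⟩
    omega
  | succ N ih =>
    intro ι _ x W hN hx0 hxW ⟨i0, hi0⟩ h16 w s hs hw μ ν hμν
    have hW : 0 < W := hi0 ▸ hx0 i0
    obtain ⟨S2, hS2⟩ : ∃ S2 : ℝ, S2 = ∑ i, x i ^ 2 := ⟨_, rfl⟩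
    have hS20 : 0 < S2 := by
      rw [hS2]
      exact Finset.sum_pos (fun i _ => by have := hx0 i; positivity) ⟨i0, Finset.mem_univ _⟩
    rw [← hS2] at hμν ⊢
    obtain ⟨κ, hκ⟩ : ∃ κ : ℝ, κ = S2 / (4 * W ^ 2) := ⟨_, rfl⟩
    have hκ0 : 0 < κ := by rw [hκ]; positivity
    have hμκ : μ + ν = κ := by rw [hμν, hκ]; ring
    apply TS.toRT (by rw [hμκ]; exact hκ0)
    rw [hμκ]
    have hsqS : √S2 * √S2 = S2 := Real.mul_self_sqrt hS20.le
    have hsqκ : √κ = √S2 / (2 * W) := by
      rw [hκ, show 4 * W ^ 2 = (2 * W) ^ 2 by ring, Real.sqrt_div hS20.le,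
        Real.sqrt_sq (by positivity)]
    refine TS.of_weighted (e := s * (S2 / (2 * W))) hκ0 (by
      rw [hsqκ]
      have : s * √S2 * (√S2 / (2 * W)) = s * ((√S2 * √S2) / (2 * W)) := by ring
      rw [this, hsqS]) ?_
    -- the values above `W / 2`
    obtain ⟨V, hV⟩ : ∃ V : Finset ℝ, V = (Finset.univ.image x).filter (W / 2 < ·) := ⟨_, rfl⟩
    have hVmem : ∀ t, t ∈ V ↔ (∃ i, x i = t) ∧ W / 2 < t := by
      intro t; rw [hV]; simp
    have hVW : W ∈ V := (hVmem W).2 ⟨⟨i0, hi0⟩, by linarith⟩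
    have hval : ∀ i, (if W / 2 < x i then x i else W) ∈ V := by
      intro i
      split_ifs with h
      · exact (hVmem _).2 ⟨⟨i, rfl⟩, h⟩
      · exact hVW
    obtain ⟨e⟩ : Nonempty (V ≃ Fin V.card) := ⟨V.equivFin⟩
    obtain ⟨gr, hgr⟩ : ∃ gr : ι → Fin V.card, ∀ i l, gr i = l ↔
        (if W / 2 < x i then x i else W) = (e.symm l : ℝ) := by
      refine ⟨fun i => e ⟨_, hval i⟩, fun i l => ?_⟩
      rw [← e.eq_symm_apply, Subtype.ext_iff]
    have hg : 0 < V.card := Finset.card_pos.2 ⟨W, hVW⟩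
    obtain ⟨T, hT⟩ : ∃ T : Fin V.card → ℝ, ∀ l, T l = (e.symm l : ℝ) := ⟨_, fun _ => rfl⟩
    have hTV : ∀ l, T l ∈ V := fun l => by rw [hT]; exact (e.symm l).2
    have hTb : ∀ l, W / 2 < T l := fun l => ((hVmem _).1 (hTV l)).2
    have hTW : ∀ l, T l ≤ W := fun l => by
      obtain ⟨⟨i, hi⟩, -⟩ := (hVmem _).1 (hTV l)
      rw [← hi]; exact hxW i
    have hTex : ∀ l, ∃ i, x i = T l := fun l => ((hVmem _).1 (hTV l)).1
    have hgr' : ∀ i l, gr i = l ↔ (if W / 2 < x i then x i else W) = T l := fun i l => by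
      rw [hT]; exact hgr i l
    have hgrT : ∀ i l, x i = T l → gr i = l := fun i l h => by
      rw [hgr', if_pos (by rw [h]; exact hTb l)]; exact h
    -- group sums
    obtain ⟨Sg, hSg⟩ : ∃ Sg : Fin V.card → ℝ, ∀ l, Sg l = ∑ i : {i // gr i = l}, x i.1 ^ 2 :=
      ⟨_, fun _ => rfl⟩
    have hcnt : ∀ l, 16 ≤ Fintype.card {i : {i // gr i = l} // x i.1 = T l} := by
      intro l
      obtain ⟨i, hi⟩ := hTex l
      refine (h16 i).trans (Fintype.card_le_of_injective
        (fun j : {j // x j = x i} => (⟨⟨j.1, hgrT _ _ (j.2.trans hi)⟩, j.2.trans hi⟩ :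
          {i : {i // gr i = l} // x i.1 = T l})) ?_)
      intro j j' h
      simp only [Subtype.mk.injEq] at h
      exact Subtype.ext h
    have hSgl : ∀ l, 16 * T l ^ 2 ≤ Sg l := by
      intro l
      rw [hSg]
      calc 16 * T l ^ 2 ≤ (Fintype.card {i : {i // gr i = l} // x i.1 = T l} : ℝ) * T l ^ 2 := by
            have h1 : (16 : ℝ) ≤ Fintype.card {i : {i // gr i = l} // x i.1 = T l} := by
              exact_mod_cast hcnt l
            nlinarith [sq_nonneg (T l)]
        _ = ∑ i : {i : {i // gr i = l} // x i.1 = T l}, x i.1.1 ^ 2 := by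
            rw [Finset.sum_congr rfl fun i _ => by rw [i.2], Finset.sum_const, Finset.card_univ,
              nsmul_eq_mul]
        _ ≤ ∑ i : {i // gr i = l}, x i.1 ^ 2 := by
            have h2 := (Equiv.sumCompl (fun i : {i // gr i = l} => x i.1 = T l)).sum_comp
              (fun i => x i.1 ^ 2)
            rw [Fintype.sum_sum_type] at h2
            rw [← h2]
            have h3 : 0 ≤ ∑ i : {i : {i // gr i = l} // ¬ x i.1 = T l},
                x ((Equiv.sumCompl (fun i : {i // gr i = l} => x i.1 = T l)) (Sum.inr i)).1 ^ 2 :=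
              Finset.sum_nonneg fun i _ => sq_nonneg _
            have h4 : ∑ i : {i : {i // gr i = l} // x i.1 = T l}, x i.1.1 ^ 2 =
                ∑ i : {i : {i // gr i = l} // x i.1 = T l},
                x ((Equiv.sumCompl (fun i : {i // gr i = l} => x i.1 = T l)) (Sum.inl i)).1 ^ 2 :=
              rfl
            rw [h4]
            exact le_add_of_nonneg_right h3
    have hSg0 : ∀ l, 0 < Sg l := fun l => by
      have h1 := hSgl l
      have h2 := hTb l
      have h3 : 0 < T l := by linarith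
      have : 0 < 16 * T l ^ 2 := by positivity
      linarith
    have hSgsum : ∑ l, Sg l = S2 := by
      rw [hS2, ← Finset.sum_fiberwise Finset.univ gr]
      refine Finset.sum_congr rfl fun l _ => ?_
      rw [hSg]
      exact (Finset.sum_subtype (Finset.univ.filter fun i => gr i = l) (fun i => by simp)
        (fun i => x i ^ 2)).symm
    have hlW : ∃ l, T l = W := ⟨e ⟨W, hVW⟩, by rw [hT]; simp⟩
    have hκg : 2 * (V.card : ℝ) + 1 ≤ 2 * κ := by
      obtain ⟨l0, hl0⟩ := hlW
      have h1 : ∑ l : Fin V.card, (4 * W ^ 2 + if l = l0 then 12 * W ^ 2 else 0) ≤ ∑ l, Sg l := by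
        refine Finset.sum_le_sum fun l _ => ?_
        have h2 := hSgl l
        split_ifs with h
        · rw [h, hl0] at h2
          rw [h]
          linarith
        · have h3 := hTb l
          nlinarith
      rw [Finset.sum_add_distrib, Finset.sum_const, Finset.card_univ, Fintype.card_fin,
        nsmul_eq_mul, Finset.sum_ite_eq' , if_pos (Finset.mem_univ _), hSgsum] at h1
      have h4 : (V.card : ℝ) + 1 ≤ κ := by
        rw [hκ, le_div_iff₀ (by positivity)]
        nlinarith [sq_nonneg W]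
      linarith
    -- the tubes
    have htube : ∀ l, ∃ a b : ℝ, 0 < a ∧ 0 < b ∧ a + b = 1 ∧
        ∀ α : ℝ, Emp (fun i : {i // gr i = l} => w i.1)
          (Reg α (α + Sg l / W ^ 2 * (s * W)) (Sg l / W ^ 2 * a) (Sg l / W ^ 2 * b)) := by
      intro l
      have hne : 0 < Fintype.card {i // gr i = l} := by
        obtain ⟨i, hi⟩ := hTex l
        exact Fintype.card_pos_iff.2 ⟨⟨i, hgrT _ _ hi⟩⟩
      have h16l : (16 : ℝ) ≤ Fintype.card {i // gr i = l} := by
        have h1 : Fintype.card {i : {i // gr i = l} // x i.1 = T l} ≤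
            Fintype.card {i // gr i = l} := Fintype.card_subtype_le _
        have := (hcnt l).trans h1
        exact_mod_cast this
      by_cases hall : ∀ i : {i // gr i = l}, x i.1 = T l
      · refine tube_block (t := T l) hs (by have := hTb l; linarith) hW (hTW l) hne ?_ ?_ ?_
        · right
          have := hTb l
          nlinarith
        · intro i
          have := hw i.1
          rwa [hall i] at this
        · rw [hSg, Finset.sum_congr rfl fun i _ => by rw [hall i], Finset.sum_const,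
            Finset.card_univ, nsmul_eq_mul]
      · push Not at hall
        obtain ⟨i1, hi1⟩ := hall
        have hTl : T l = W := by
          have h1 := (hgr' i1.1 l).1 i1.2
          split_ifs at h1 with h2
          · exact absurd h1 hi1
          · exact h1.symm
        have hsm : ∀ i : {i : {i // gr i = l} // ¬ x i.1 = W}, x i.1.1 ≤ W / 2 := by
          intro i
          by_contra h
          push Not at h
          have h1 := (hgr' i.1.1 l).1 i.1.2
          rw [if_pos h, hTl] at h1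
          exact i.2 h1
        have hne2 : (Finset.univ : Finset {i : {i // gr i = l} // ¬ x i.1 = W}).Nonempty :=
          ⟨⟨i1, by rw [← hTl]; exact hi1⟩, Finset.mem_univ _⟩
        obtain ⟨i2, -, hi2⟩ := Finset.exists_max_image Finset.univ
          (fun i : {i : {i // gr i = l} // ¬ x i.1 = W} => x i.1.1) hne2
        refine tube_top (x := fun i : {i // gr i = l} => x i.1) (W2 := x i2.1.1) hs hW (hx0 _)
          (by have := hsm i2; linarith) (fun i => hx0 _) ⟨i1, by rw [← hTl]; exact hi1⟩ ?_ ?_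
          (fun i => hw i.1) (by rw [hSg])
        · have h1 := hcnt l
          rw [hTl] at h1
          omega
        · refine ih (ι := {i : {i // gr i = l} // ¬ x i.1 = W}) (fun i => x i.1.1) (x i2.1.1)
            ?_ (fun i => hx0 _) (fun i => hi2 i (Finset.mem_univ _)) ⟨i2, rfl⟩ ?_
          · have h1 : Fintype.card {i : {i // gr i = l} // ¬ x i.1 = W} < Fintype.card ι := by
              refine Fintype.card_lt_of_injective_of_notMem
                (fun i : {i : {i // gr i = l} // ¬ x i.1 = W} => i.1.1) ?_ (b := i0) ?_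
              · intro i j h
                exact Subtype.ext (Subtype.ext h)
              · rintro ⟨i, hi⟩
                apply i.2
                have : i.1.1 = i0 := hi
                rw [this]; exact hi0
            omega
          · intro i
            have hsm' := hsm i
            have hmem : ∀ j : {j // x j = x i.1.1}, gr j.1 = l := fun j => by
              rw [hgr', if_neg (by rw [j.2]; linarith)]
              exact hTl.symm
            have hmem2 : ∀ j : {j // x j = x i.1.1}, ¬ x j.1 = W := fun j h => by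
              rw [j.2] at h
              rw [h] at hsm'
              linarith
            refine (h16 i.1.1).trans (Fintype.card_le_of_injective
              (fun j : {j // x j = x i.1.1} => (⟨⟨⟨j.1, hmem j⟩, hmem2 j⟩, j.2⟩ :
                {j : {i : {i // gr i = l} // ¬ x i.1 = W} // x j.1.1 = x i.1.1})) ?_)
            intro j j' h
            simp only [Subtype.mk.injEq] at h
            exact Subtype.ext h
    choose a b ha hb hab hE using htube
    refine Emp_groups hg gr (a := a) (b := b) (γ := fun l => Sg l / S2) hκg (by positivity) ha hb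
      hab (fun l => div_pos (hSg0 l) hS20) ?_ ?_
    · rw [← Finset.sum_div, hSgsum]; exact div_self hS20.ne'
    · intro l
      have h1 := hE l (-(2 * a l * (Sg l / S2) * (s * (S2 / (2 * W)))))
      have e1 : -(2 * a l * (Sg l / S2) * (s * (S2 / (2 * W)))) + Sg l / W ^ 2 * (s * W) =
          2 * b l * (Sg l / S2) * (s * (S2 / (2 * W))) := by
        have h2 : b l = 1 - a l := by have := hab l; linarith
        rw [h2]
        field_simp
        ring
      have e2 : 4 * κ * (Sg l / S2) * a l = Sg l / W ^ 2 * a l := by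
        rw [hκ]; field_simp
      have e3 : 4 * κ * (Sg l / S2) * b l = Sg l / W ^ 2 * b l := by
        rw [hκ]; field_simp
      rw [e1] at h1
      rw [e2, e3]
      exact h1

/-- the plane by the nodal cubic -/
theorem plane9 {ι : Type} {w : ι → ℕ} {E m : ℝ} {d : ℕ} (hE : (d : ℝ) ≤ E) (hm : 9 ≤ m)
    (h : TS w E 0 (m ^ 2 / 9)) :
    Emp w {q : ℤ × ℤ | 0 ≤ q.1 ∧ 0 ≤ q.2 ∧ q.1 + q.2 ≤ (d : ℤ)} := by
  obtain ⟨v, hv⟩ : ∃ v : ℤ, v = ⌈m⌉ - 5 := ⟨_, rfl⟩
  obtain ⟨μ, hμ⟩ : ∃ μ : ℝ, μ = m - v := ⟨_, rfl⟩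
  have hμ4 : 4 < μ := by
    rw [hμ, hv]
    push_cast
    have := Int.ceil_lt_add_one m
    linarith
  have hμ5 : μ ≤ 5 := by
    rw [hμ, hv]
    push_cast
    have := Int.le_ceil m
    linarith
  have hmain : TS w E μ (9 - μ) := by
    refine TS.stepA 1 v isCoprime_one_left (by norm_num) ?_ ?_ ?_ ?_
    · push_cast; rw [hμ]; linarith
    · push_cast; rw [hμ]; linarith
    · linarith
    · have e0 : μ + (9 - μ) = 9 := by ring
      have e1 : ((1 : ℤ) : ℝ) * (((1 : ℤ) : ℝ) * μ + v) +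
          ((v : ℝ) - ((1 : ℤ) : ℝ) * (9 - μ)) * (((1 : ℤ) : ℝ) * μ + v) / (μ + (9 - μ)) =
          m ^ 2 / 9 := by
        rw [e0]
        push_cast
        have e2 : 1 * μ + (v : ℝ) = m := by rw [hμ]; ring
        have e3 : (v : ℝ) - 1 * (9 - μ) = m - 9 := by rw [hμ]; ring
        rw [e2, e3]
        field_simp
        ring
      apply TS.toRT
      · rw [e1]; positivity
      · rw [e1]; exact h
  apply Pool.Agent.TH603.EL.Emp_key (τ := μ / 3 - 1) (by linarith) (by linarith)
  have h1 := hmain (-((d : ℝ) * (1 + (μ / 3 - 1))))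
  have e4 : √(μ + (9 - μ)) = 3 := by
    rw [show μ + (9 - μ) = 3 ^ 2 by ring]
    exact Real.sqrt_sq (by norm_num)
  rw [e4] at h1
  have e5 : 3 * (1 + (μ / 3 - 1)) = μ := by ring
  have e6 : 3 * (2 - (μ / 3 - 1)) = 9 - μ := by ring
  rw [e5, e6]
  refine h1.mono ?_
  rintro ⟨a, b⟩ ⟨h2, h3, h4⟩
  simp only at h2 h3 h4
  refine ⟨h2, h3, ?_⟩
  simp only
  have e7 : (d : ℝ) * (2 - (μ / 3 - 1)) = -((d : ℝ) * (1 + (μ / 3 - 1))) + 3 * d := by ring
  rw [e7] at h4
  linarith

/-- emptiness in the plane -/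
theorem star_rep' {ι : Type} [Fintype ι] {x : ι → ℝ} {c W : ℝ} (hx0 : ∀ i, 0 < x i)
    (hne : Nonempty ι) (hW0 : 0 < W) (hc : 6 * W ≤ c) (hsq : ∑ i, x i ^ 2 = c ^ 2)
    (hU : UU' x (2 * W)) (w : ι → ℕ) (d : ℕ)
    (hw : ∀ i, x i * d < c * w i) :
    Emp w {q : ℤ × ℤ | 0 ≤ q.1 ∧ 0 ≤ q.2 ∧ q.1 + q.2 ≤ (d : ℤ)} := by
  classical
  have hc0 : 0 < c := by linarith
  have hs1 : ∀ i, ∃ t : ℝ, (d : ℝ) / c < t ∧ t * x i < w i := by
    intro i
    have h1 : (d : ℝ) / c < w i / x i := by
      rw [div_lt_div_iff₀ hc0 (hx0 i)]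
      have := hw i
      linarith
    obtain ⟨t, h2, h3⟩ := exists_between h1
    exact ⟨t, h2, by rwa [lt_div_iff₀ (hx0 i)] at h3⟩
  choose t ht1 ht2 using hs1
  obtain ⟨i1, -, hi1⟩ := Finset.exists_min_image (Finset.univ : Finset ι) t
    Finset.univ_nonempty
  have hd0 : (0 : ℝ) ≤ d := Nat.cast_nonneg d
  have hs : 0 < t i1 := lt_of_le_of_lt (by positivity) (ht1 i1)
  have hU1 := hU w (t i1) hs
    (fun i => lt_of_le_of_lt (mul_le_mul_of_nonneg_right (hi1 i (Finset.mem_univ _)) (hx0 i).le)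
      (ht2 i)) 0 ((3 * c / (2 * W)) ^ 2 / 9) (by
      rw [hsq]
      field_simp
      ring)
  rw [hsq, Real.sqrt_sq hc0.le] at hU1
  refine plane9 (m := 3 * c / (2 * W)) ?_ ?_ hU1
  · have := ht1 i1
    rw [div_lt_iff₀ hc0] at this
    exact this.le
  · rw [le_div_iff₀ (by positivity)]
    linarith

/-- emptiness in the plane -/
theorem star_rep {ι : Type} [Fintype ι] {x : ι → ℝ} {c W : ℝ} (hx0 : ∀ i, 0 < x i)
    (hW : ∃ i, x i = W) (hc : 6 * W ≤ c) (hsq : ∑ i, x i ^ 2 = c ^ 2)
    (hU : UU' x (2 * W)) (w : ι → ℕ) (d : ℕ)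
    (hw : ∀ i, x i * d < c * w i) :
    Emp w {q : ℤ × ℤ | 0 ≤ q.1 ∧ 0 ≤ q.2 ∧ q.1 + q.2 ≤ (d : ℤ)} := by
  obtain ⟨i0, hi0⟩ := hW
  exact star_rep' hx0 ⟨i0⟩ (hi0 ▸ hx0 i0) hc hsq hU w d hw

/-- the class of self-intersection zero with repeated weights is nef -/
theorem nf_rep {n : ℕ} (x : Fin n → ℝ) (hx0 : ∀ i, 0 < x i) {c : ℝ} (hc0 : 0 < c)
    (hsq : ∑ i, x i ^ 2 = c ^ 2) (h16 : ∀ i, 16 ≤ Fintype.card {j // x j = x i})
    (h6 : ∀ i, 6 * x i ≤ c) : Pool.Agent.H350R3.NB.Nf ℂ x c := by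
  classical
  have hne : Nonempty (Fin n) := by
    by_contra h
    rw [not_nonempty_iff] at h
    rw [Finset.univ_eq_empty, Finset.sum_empty] at hsq
    have : 0 < c ^ 2 := by positivity
    linarith
  obtain ⟨i0, -, hi0⟩ := Finset.exists_max_image (Finset.univ : Finset (Fin n)) x
    Finset.univ_nonempty
  exact NF.nf_of_star x hx0 hc0 hsq fun w d hw =>
    star_rep hx0 ⟨i0, rfl⟩ (h6 i0) hsq
      (U_rep (Fintype.card (Fin n)) x (x i0) le_rfl hx0 (fun i => hi0 i (Finset.mem_univ _))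
        ⟨i0, rfl⟩ h16) w d hw

end Pool.Agent.TH146.MN
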