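import Pool.Agent.H15.G.R_seed8.TH146.MN.RKey
import Pool.Agent.H15.G.R_seed8.TH146.MN.Star

/-! Shapes of triangles for fixed multiplicities, and the moves between them. -/

set_option autoImplicit false
set_option linter.unusedSectionVars false

namespace Pool.Agent.TH146.MN

open Pool.Agent.TH176.Nag Pool.Agent.TH181.Nag

section moves
variable {ι : Type} {w : ι → ℕ} {E : ℝ}

/-- emptiness on all triangles of the shape `(μ, ν)` and twice the area `E ^ 2` -/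
def TS (w : ι → ℕ) (E μ ν : ℝ) : Prop := ∀ α : ℝ, Emp w (Reg α (α + E * √(μ + ν)) μ ν)

theorem TS.mirror {μ ν : ℝ} (h : TS w E ν μ) : TS w E μ ν := by
  intro α
  apply Emp_mirror
  have h1 := h (-(α + E * √(μ + ν)))
  rw [add_comm ν μ] at h1
  have e : -(α + E * √(μ + ν)) + E * √(μ + ν) = -α := by ring
  rwa [e] at h1

theorem TS.shear {μ ν : ℝ} (k : ℤ) (h : TS w E (μ + k) (ν - k)) : TS w E μ ν := by
  intro α
  have h1 := h α
  have e : μ + k + (ν - k) = μ + ν := by ring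
  rw [e] at h1
  refine h1.comap 1 k 0 1 0 0 (by norm_num) ?_
  rintro ⟨a, b⟩ ⟨hb, hl, hr⟩
  simp only at hb hl hr
  refine ⟨by simpa using hb, ?_, ?_⟩
  · simp only; push_cast; linarith
  · simp only; push_cast; linarith

/-- flattening, the top vertex takes the largest value -/
theorem TS.stepA {μ ν : ℝ} (u v : ℤ) (hc : IsCoprime u v) (hu : 0 ≤ u) (h1 : 0 ≤ u * μ + v)
    (h2 : u * ν ≤ v) (hn : 0 < μ + ν)
    (h : TS w E (u * (u * μ + v)) ((v - u * ν) * (u * μ + v) / (μ + ν))) : TS w E μ ν := by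
  intro α
  obtain ⟨p, q, hpq⟩ := hc
  have h3 := h (u * α)
  have e1 : u * (u * μ + v) + (v - u * ν) * (u * μ + v) / (μ + ν) = (u * μ + v) ^ 2 / (μ + ν) := by
    field_simp
    ring
  have hs : 0 < √(μ + ν) := Real.sqrt_pos.2 hn
  have hs2 : √(μ + ν) ^ 2 = μ + ν := Real.sq_sqrt hn.le
  have e2 : √(u * (u * μ + v) + (v - u * ν) * (u * μ + v) / (μ + ν)) = (u * μ + v) / √(μ + ν) := by
    rw [e1, Real.sqrt_div (sq_nonneg _), Real.sqrt_sq h1]
  rw [e2] at h3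
  refine Emp_regA u v p q (by linarith) hu (by linarith) h2 hn rfl ?_ rfl ?_ h3
  · have e3 : E * ((u * μ + v) / √(μ + ν)) * (μ + ν) = E * (u * μ + v) * √(μ + ν) := by
      have e4 : E * ((u * μ + v) / √(μ + ν)) * (μ + ν) =
          E * ((u * μ + v) / √(μ + ν)) * √(μ + ν) ^ 2 := by rw [hs2]
      rw [e4]
      field_simp
    linear_combination e3
  · rw [div_mul_cancel₀ _ hn.ne']; ring

/-- flattening, the top vertex takes the middle value -/
theorem TS.stepC {μ ν : ℝ} (u v : ℤ) (hc : IsCoprime u v) (hu : 0 ≤ u) (h1 : 0 ≤ u * μ + v)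
    (h2 : v ≤ u * ν)
    (h : TS w E (u * (u * μ + v)) (u * (u * ν - v))) : TS w E μ ν := by
  intro α
  obtain ⟨p, q, hpq⟩ := hc
  have h3 := h (u * α)
  have hu' : (0 : ℝ) ≤ u := by exact_mod_cast hu
  have e1 : u * (u * μ + v) + u * (u * ν - v) = u ^ 2 * (μ + ν) := by ring
  have e2 : √(u * (u * μ + v) + u * (u * ν - v)) = u * √(μ + ν) := by
    rw [e1, Real.sqrt_mul (sq_nonneg _), Real.sqrt_sq hu']
  rw [e2] at h3
  refine Emp_regC u v p q (by linarith) hu (by linarith) h2 rfl ?_ rfl rfl h3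
  ring

theorem TS.inv {n : ℝ} (hn : 0 < n) (h : TS w E 0 (1 / n)) : TS w E 0 n := by
  refine TS.stepA 0 1 isCoprime_one_right le_rfl (by norm_num) (by norm_num) (by linarith) ?_
  have e1 : ((0 : ℤ) : ℝ) * (((0 : ℤ) : ℝ) * 0 + ((1 : ℤ) : ℝ)) = 0 := by push_cast; ring
  have e2 : (((1 : ℤ) : ℝ) - ((0 : ℤ) : ℝ) * n) * (((0 : ℤ) : ℝ) * 0 + ((1 : ℤ) : ℝ)) / (0 + n) = 1 / n := by
    push_cast; ring
  rw [e1, e2]
  exact h

/-- every shape flattens to a right triangle -/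
theorem TS.toRT {μ ν : ℝ} (hn : 0 < μ + ν) (h : TS w E 0 (μ + ν)) : TS w E μ ν := by
  refine TS.stepA 0 1 isCoprime_one_right le_rfl (by norm_num) (by norm_num) hn ?_
  have e1 : ((0 : ℤ) : ℝ) * (((0 : ℤ) : ℝ) * μ + ((1 : ℤ) : ℝ)) = 0 := by push_cast; ring
  have e2 : (((1 : ℤ) : ℝ) - ((0 : ℤ) : ℝ) * ν) * (((0 : ℤ) : ℝ) * μ + ((1 : ℤ) : ℝ)) / (μ + ν) =
      1 / (μ + ν) := by
    push_cast; ring
  rw [e1, e2]
  apply TS.inv (by positivity)
  rw [one_div_one_div]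
  exact h

theorem TS.mul {n : ℝ} (x : ℕ) (hx : 1 ≤ x) (hxn : 1 ≤ x * n) (h : TS w E 0 (x ^ 2 * n)) :
    TS w E 0 n := by
  rcases Nat.lt_or_ge 1 x with h1 | h1
  · refine TS.stepC x 1 isCoprime_one_right (by positivity) (by simp) (by push_cast; linarith) ?_
    refine TS.shear (-x) ?_
    have e1 : (((x : ℕ) : ℤ) : ℝ) * ((((x : ℕ) : ℤ) : ℝ) * 0 + ((1 : ℤ) : ℝ)) + ((-(x : ℤ) : ℤ) : ℝ) = 0 := by
      push_cast; ring
    have e2 : (((x : ℕ) : ℤ) : ℝ) * ((((x : ℕ) : ℤ) : ℝ) * n - ((1 : ℤ) : ℝ)) - ((-(x : ℤ) : ℤ) : ℝ) = x ^ 2 * n := by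
      push_cast; ring
    rw [e1, e2]
    exact h
  · have : x = 1 := by omega
    subst this
    simpa using h

/-- the move from a right triangle of width `W` to width `k W + y / W` -/
theorem TS.move {n : ℝ} (hn : 0 < n) (k y : ℕ) (hc : IsCoprime (k : ℤ) (y : ℤ)) (hk : 0 < k)
    (h : TS w E 0 ((k * n + y) ^ 2 / n)) : TS w E 0 n := by
  apply TS.mirror
  refine TS.stepA k y hc (by positivity) (by positivity) (by push_cast; simp) (by linarith) ?_
  have e : (((k : ℕ) : ℤ) : ℝ) * ((((k : ℕ) : ℤ) : ℝ) * n + (((y : ℕ) : ℤ) : ℝ)) +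
      ((((y : ℕ) : ℤ) : ℝ) - (((k : ℕ) : ℤ) : ℝ) * 0) * ((((k : ℕ) : ℤ) : ℝ) * n + (((y : ℕ) : ℤ) : ℝ)) / (n + 0) =
      (k * n + y) ^ 2 / n := by
    push_cast
    field_simp
    ring
  apply TS.toRT
  · rw [e]
    have : (0 : ℝ) < k := by exact_mod_cast hk
    positivity
  · rw [e]; exact h

/-- the weighted plane gives the right triangle -/
theorem TS.of_weighted {δ e : ℝ} (hδ : 0 < δ) (he : e = E * √δ)
    (h : Emp w {m : ℤ × ℤ | 0 ≤ m.1 ∧ 0 ≤ m.2 ∧ (m.1 : ℝ) + δ * m.2 ≤ e}) : TS w E 0 δ := by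
  intro α
  rw [zero_add, ← he]
  refine h.comap 1 0 0 1 (-⌈α⌉) 0 (by norm_num) ?_
  rintro ⟨i, j⟩ ⟨h1, h2, h3⟩
  simp only at h1 h2 h3
  have h5 : α ≤ ⌈α⌉ := Int.le_ceil α
  have h6 : ⌈α⌉ ≤ i := Int.ceil_le.2 (by linarith)
  refine ⟨by simp only; omega, by simp only; omega, ?_⟩
  simp only
  push_cast
  linarith

end moves

/-- emptiness of all groups on their triangles gives emptiness in the weighted plane -/
theorem Emp_groups {ι : Type} [Finite ι] {g : ℕ} (hg : 0 < g) (gr : ι → Fin g) {w : ι → ℕ}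
    {δ e : ℝ} (hδ : 2 * (g : ℝ) + 1 ≤ 2 * δ) (he : 0 ≤ e) {a b γ : Fin g → ℝ}
    (ha : ∀ l, 0 < a l) (hb : ∀ l, 0 < b l) (hab : ∀ l, a l + b l = 1)
    (hγ0 : ∀ l, 0 < γ l) (hγ : ∑ l, γ l = 1)
    (hE : ∀ l, Emp (fun i : {i // gr i = l} => w i)
      (Reg (-(2 * a l * γ l * e)) (2 * b l * γ l * e) (4 * δ * γ l * a l) (4 * δ * γ l * b l))) :
    Emp w {m : ℤ × ℤ | 0 ≤ m.1 ∧ 0 ≤ m.2 ∧ (m.1 : ℝ) + δ * m.2 ≤ e} := by
  classical
  have hg' : (0 : ℝ) < g := by exact_mod_cast hg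
  have hδ0 : 0 < δ := by linarith
  obtain ⟨z, hz⟩ := Pool.Agent.TH698.NagT3.exists_indep (ι × Fin 2)
  have hzx : ∀ i, z (i, 0) ≠ 0 := fun i => hz.ne_zero (i, 0)
  have hzy : ∀ i, z (i, 1) ≠ 0 := fun i => hz.ne_zero (i, 1)
  have hz1 : ∀ i, z (i, 0) ^ 2 ≠ 1 := by
    intro i h
    have h1 := hz.transcendental (i, 0)
    apply h1
    refine ⟨Polynomial.X ^ 2 - 1, ?_, ?_⟩
    · intro h2
      have := congrArg (Polynomial.eval 0) h2
      simp at this
    · simp [h]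
  refine Emp_multiR (F := ℂ) hg (gr := gr) (w := w) hδ he ha hb hab
    (fun l => (hγ0 l).le) hγ (x := fun i => z (i, 0)) (y := fun i => z (i, 1)) hzx hzy hz1 ?_
  intro l f hf hLM
  have hxy : AlgebraicIndependent ℚ (fun q : {i // gr i = l} × Fin 2 =>
      ![(fun i : {i // gr i = l} => z (i.1, 0)) q.1,
        (fun i : {i // gr i = l} => z (i.1, 1)) q.1] q.2) := by
    have e : (fun q : {i // gr i = l} × Fin 2 => (![(fun i : {i // gr i = l} => z (i.1, 0)) q.1,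
        (fun i : {i // gr i = l} => z (i.1, 1)) q.1] : Fin 2 → ℂ) q.2) =
        z ∘ fun q : {i // gr i = l} × Fin 2 => (q.1.1, q.2) := by
      funext q
      obtain ⟨i, j⟩ := q
      fin_cases j <;> rfl
    rw [e]
    apply hz.comp
    rintro ⟨i, j⟩ ⟨i', j'⟩ h
    simp only [Prod.mk.injEq] at h
    exact Prod.ext (Subtype.ext h.1) h.2
  have hal := ha l
  have hbl := hb l
  have hgl := hγ0 l
  exact Emp_generic' (Reg_finite (by positivity) (by positivity) (by positivity)) (hE l)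
    (fun i => hzx i.1) (fun i => hzy i.1) hxy f hf (fun i => hLM i.1 i.2)

/-- one node: arbitrary flatter triangles -/
theorem TS.squeeze {ι : Type} [Finite ι] {w : ι → ℕ} {E : ℝ} (hE : 0 ≤ E) {δ m : ℝ}
    (hδ : 3 / 2 ≤ δ) (hm : 4 * δ ≤ m) (h : TS w E 0 (m ^ 2 / (4 * δ))) : TS w E 0 δ := by
  have hδ0 : 0 < δ := by linarith
  have hs : 0 < √δ := Real.sqrt_pos.2 hδ0
  have hs2 : √δ ^ 2 = δ := Real.sq_sqrt hδ0.le
  have hm0 : 0 < m := by linarith
  apply TS.of_weighted hδ0 (e := E * √δ) rfl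
  -- the slopes
  obtain ⟨y, hy1, hy2⟩ : ∃ y : ℤ, 0 < m - y ∧ m - y ≤ 1 := by
    refine ⟨⌈m⌉ - 1, ?_, ?_⟩
    · push_cast
      have := Int.ceil_lt_add_one m
      linarith
    · push_cast
      have := Int.le_ceil m
      linarith
  have h4 : (1 : ℝ) < 4 * δ := by linarith
  obtain ⟨a, ha⟩ : ∃ a : ℝ, a = (m - y) / (4 * δ) := ⟨_, rfl⟩
  have ha4 : 4 * δ * a = m - y := by rw [ha]; field_simp
  have ha0 : 0 < a := by rw [ha]; positivity
  have ha1 : a < 1 := by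
    rw [ha, div_lt_one (by linarith)]; linarith
  have hmain : TS w E (4 * δ * a) (4 * δ * (1 - a)) := by
    refine TS.stepA 1 y isCoprime_one_left (by norm_num) ?_ ?_ ?_ ?_
    · push_cast; rw [ha4]; linarith
    · push_cast; linarith
    · have : 4 * δ * a + 4 * δ * (1 - a) = 4 * δ := by ring
      rw [this]; linarith
    · have e0 : 4 * δ * a + 4 * δ * (1 - a) = 4 * δ := by ring
      have e1 : ((1 : ℤ) : ℝ) * (((1 : ℤ) : ℝ) * (4 * δ * a) + y) +
          ((y : ℝ) - ((1 : ℤ) : ℝ) * (4 * δ * (1 - a))) * (((1 : ℤ) : ℝ) * (4 * δ * a) + y) /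
            (4 * δ * a + 4 * δ * (1 - a)) = m ^ 2 / (4 * δ) := by
        rw [e0]
        push_cast
        have e2 : 1 * (4 * δ * a) + (y : ℝ) = m := by rw [ha4]; ring
        have e3 : (y : ℝ) - 1 * (4 * δ * (1 - a)) = m - 4 * δ := by linarith
        rw [e2, e3]
        field_simp
        ring
      apply TS.toRT
      · rw [e1]; positivity
      · rw [e1]; exact h
  refine Emp_groups (g := 1) one_pos (fun _ => 0) (a := fun _ => a) (b := fun _ => 1 - a)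
    (γ := fun _ => 1) (by push_cast; linarith) (by positivity) (fun _ => ha0)
    (fun _ => by linarith) (fun _ => by ring) (fun _ => one_pos) (by simp) ?_
  intro l
  have h5 := hmain (-(2 * a * 1 * (E * √δ)))
  have e0 : 4 * δ * a + 4 * δ * (1 - a) = 4 * δ := by ring
  have e4 : √(4 * δ) = 2 * √δ := by
    rw [Real.sqrt_mul (by norm_num)]
    have : √(4 : ℝ) = 2 := by
      rw [show (4 : ℝ) = 2 ^ 2 by norm_num]
      exact Real.sqrt_sq (by norm_num)
    rw [this]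
  rw [e0, e4] at h5
  have e5 : -(2 * a * 1 * (E * √δ)) + E * (2 * √δ) = 2 * (1 - a) * 1 * (E * √δ) := by ring
  rw [e5] at h5
  have e6 : 4 * δ * a = 4 * δ * 1 * a := by ring
  have e7 : 4 * δ * (1 - a) = 4 * δ * 1 * (1 - a) := by ring
  rw [e6, e7] at h5
  obtain ⟨F, i1, i2, x, y', hx, hy', hF⟩ := h5
  exact ⟨F, i1, i2, fun i => x i.1, fun i => y' i.1, fun i => hx i.1, fun i => hy' i.1,
    fun f hf hL => hF f hf fun i => hL ⟨i, Subsingleton.elim _ _⟩⟩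

end Pool.Agent.TH146.MN
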